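import Pool.Agent.Lib.MP_e85462_co.G.Defs

open MeasureTheory Set

namespace SqL

theorem GA1_fa_rot (S : Sq) (z : ℝ × ℝ) : S.rot.fa z = S.fb z := by
  simp only [Sq.fa, Sq.fb, Sq.rot]
  ring

theorem GA1_fb_rot (S : Sq) (z : ℝ × ℝ) : S.rot.fb z = -S.fa z := by
  simp only [Sq.fa, Sq.fb, Sq.rot]
  ring

theorem rot_op (S : Sq) : S.rot.op = S.op := by
  ext z
  simp only [Sq.op, mem_setOf_eq, GA1_fa_rot, GA1_fb_rot, abs_neg]
  exact and_comm

theorem rot_cl (S : Sq) : S.rot.cl = S.cl := by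
  ext z
  simp only [Sq.cl, mem_setOf_eq, GA1_fa_rot, GA1_fb_rot, abs_neg]
  exact and_comm

theorem pp_rot (S T : Sq) : pp S.rot T = qq S T := GA1_fa_rot S T.m

theorem qq_rot (S T : Sq) : qq S.rot T = -pp S T := GA1_fb_rot S T.m

theorem al_rot (S T : Sq) : al S.rot T = al S T := by
  have e1 : S.rot.c * T.c + S.rot.s * T.s = S.c * T.s - S.s * T.c := by
    simp only [Sq.rot]
    ring
  have e2 : S.rot.c * T.s - S.rot.s * T.c = -(S.c * T.c + S.s * T.s) := by
    simp only [Sq.rot]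
    ring
  rw [al, al, e1, e2, abs_neg, min_comm]

theorem al_comm (S T : Sq) : al S T = al T S := by
  have e1 : T.c * S.c + T.s * S.s = S.c * T.c + S.s * T.s := by ring
  have e2 : T.c * S.s - T.s * S.c = -(S.c * T.s - S.s * T.c) := by ring
  rw [al, al, e1, e2, abs_neg]

theorem al_rot' (S T : Sq) : al S T.rot = al S T := by
  rw [al_comm, al_rot, al_comm]

theorem al_self (S : Sq) : al S S = 0 := by
  have e : S.c * S.s - S.s * S.c = 0 := by ring
  rw [al, e, abs_zero]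
  exact min_eq_right (abs_nonneg _)

theorem al_nonneg (S T : Sq) : 0 ≤ al S T := le_min (abs_nonneg _) (abs_nonneg _)

theorem GA1_cs (S T : Sq) : (S.c * T.c + S.s * T.s) ^ 2 + (S.c * T.s - S.s * T.c) ^ 2 = 1 := by
  have : (S.c * T.c + S.s * T.s) ^ 2 + (S.c * T.s - S.s * T.c) ^ 2 =
    (S.c ^ 2 + S.s ^ 2) * (T.c ^ 2 + T.s ^ 2) := by ring
  rw [this, S.h, T.h, one_mul]

theorem al_le_one (S T : Sq) : al S T ≤ 1 := by
  refine (min_le_left _ _).trans ?_
  have h := GA1_cs S T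
  rw [← sq_le_one_iff_abs_le_one]
  nlinarith [sq_nonneg (S.c * T.s - S.s * T.c)]

theorem pq_sq (S T : Sq) : pp S T ^ 2 + qq S T ^ 2 = dd S T := by
  have e : pp S T ^ 2 + qq S T ^ 2 = (S.c ^ 2 + S.s ^ 2) * dd S T := by
    simp only [pp, qq, dd, Sq.fa, Sq.fb, Sq.m]
    ring
  rw [e, S.h, one_mul]

theorem dd_comm (S T : Sq) : dd S T = dd T S := by
  simp only [dd]
  ring

theorem n1_rot (S T : Sq) : n1 S.rot T = n1 S T := by
  rw [n1, n1, pp_rot, qq_rot, abs_neg, add_comm]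

end SqL
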