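import Pool.Agent.Lib.MP_e85462_co.G.Defs

open MeasureTheory Set

namespace SqL


theorem al_tri (S T U : Sq) : al S U ≤ al S T + al T U := by
  have hb : ∀ A B : Sq, |A.c * B.c + A.s * B.s| ≤ 1 ∧ |A.c * B.s - A.s * B.c| ≤ 1 := by
    intro A B
    have h1 := A.h
    have h2 := B.h
    have h3 : (A.c * B.c + A.s * B.s) ^ 2 + (A.c * B.s - A.s * B.c) ^ 2 = 1 := by
      have : (A.c * B.c + A.s * B.s) ^ 2 + (A.c * B.s - A.s * B.c) ^ 2 =
        (A.c ^ 2 + A.s ^ 2) * (B.c ^ 2 + B.s ^ 2) := by ring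
      rw [this, h1, h2, one_mul]
    constructor
    · rw [← sq_le_one_iff_abs_le_one]
      nlinarith [sq_nonneg (A.c * B.s - A.s * B.c)]
    · rw [← sq_le_one_iff_abs_le_one]
      nlinarith [sq_nonneg (A.c * B.c + A.s * B.s)]
  obtain ⟨hk1, hg1⟩ := hb S T
  obtain ⟨hk2, hg2⟩ := hb T U
  have hT := T.h
  have eg : S.c * U.s - S.s * U.c = (S.c * T.s - S.s * T.c) * (T.c * U.c + T.s * U.s) +
      (S.c * T.c + S.s * T.s) * (T.c * U.s - T.s * U.c) := by
    linear_combination (-(S.c * U.s - S.s * U.c)) * hT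
  have ek : S.c * U.c + S.s * U.s = (S.c * T.c + S.s * T.s) * (T.c * U.c + T.s * U.s) -
      (S.c * T.s - S.s * T.c) * (T.c * U.s - T.s * U.c) := by
    linear_combination (-(S.c * U.c + S.s * U.s)) * hT
  unfold al
  rw [eg, ek]
  generalize S.c * T.c + S.s * T.s = k1 at *
  generalize S.c * T.s - S.s * T.c = g1 at *
  generalize T.c * U.c + T.s * U.s = k2 at *
  generalize T.c * U.s - T.s * U.c = g2 at *
  rcases min_choice |k1| |g1| with e1 | e1 <;> rcases min_choice |k2| |g2| with e2 | e2 <;>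
    rw [e1, e2]
  · refine (min_le_right _ _).trans ((abs_add_le _ _).trans ?_)
    rw [abs_mul, abs_mul]
    have h3 := mul_le_mul_of_nonneg_right hg1 (abs_nonneg k2)
    have h4 := mul_le_mul_of_nonneg_left hg2 (abs_nonneg k1)
    linarith
  · refine (min_le_left _ _).trans ((abs_sub _ _).trans ?_)
    rw [abs_mul, abs_mul]
    have h3 := mul_le_mul_of_nonneg_left hk2 (abs_nonneg k1)
    have h4 := mul_le_mul_of_nonneg_right hg1 (abs_nonneg g2)
    linarith
  · refine (min_le_left _ _).trans ((abs_sub _ _).trans ?_)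
    rw [abs_mul, abs_mul]
    have h3 := mul_le_mul_of_nonneg_right hk1 (abs_nonneg k2)
    have h4 := mul_le_mul_of_nonneg_left hg2 (abs_nonneg g1)
    linarith
  · refine (min_le_right _ _).trans ((abs_add_le _ _).trans ?_)
    rw [abs_mul, abs_mul]
    have h3 := mul_le_mul_of_nonneg_left hk2 (abs_nonneg g1)
    have h4 := mul_le_mul_of_nonneg_right hk1 (abs_nonneg g2)
    linarith

end SqL
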