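import Pool.Agent.Lib.MP_e85462_co.G.Defs

open MeasureTheory Set

namespace SqL

theorem rel_fa (S T : Sq) (z : ℝ × ℝ) : (T.rel S).fa (S.fa z, S.fb z) = T.fa z := by
  unfold Sq.fa Sq.rel Sq.m Sq.fb Sq.fa
  dsimp only
  linear_combination ((z.1 - T.x) * T.c + (z.2 - T.y) * T.s) * S.h

theorem rel_fb (S T : Sq) (z : ℝ × ℝ) : (T.rel S).fb (S.fa z, S.fb z) = T.fb z := by
  unfold Sq.fb Sq.rel Sq.m Sq.fb Sq.fa
  dsimp only
  linear_combination ((z.2 - T.y) * T.c - (z.1 - T.x) * T.s) * S.h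

theorem rel_self (S : Sq) : S.rel S = std := by
  have h := S.h
  unfold Sq.rel std Sq.fa Sq.fb Sq.m
  rw [Sq.mk.injEq]
  refine ⟨by ring, by ring, by linear_combination h, by ring⟩

theorem rel_x (S T : Sq) : (T.rel S).x = pp S T ∧ (T.rel S).y = qq S T := ⟨rfl, rfl⟩

theorem rel_al (S T U : Sq) : al (T.rel S) (U.rel S) = al T U := by
  have h := S.h
  unfold al Sq.rel
  dsimp only
  have e1 : (S.c * T.c + S.s * T.s) * (S.c * U.c + S.s * U.s) +
      (S.c * T.s - S.s * T.c) * (S.c * U.s - S.s * U.c) = T.c * U.c + T.s * U.s := by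
    linear_combination (T.c * U.c + T.s * U.s) * h
  have e2 : (S.c * T.c + S.s * T.s) * (S.c * U.s - S.s * U.c) -
      (S.c * T.s - S.s * T.c) * (S.c * U.c + S.s * U.s) = T.c * U.s - T.s * U.c := by
    linear_combination (T.c * U.s - T.s * U.c) * h
  rw [e1, e2]

theorem rel_al' (S T : Sq) : al std (T.rel S) = al S T := by
  unfold al Sq.rel std
  dsimp only
  rw [one_mul, zero_mul, add_zero, one_mul, zero_mul, sub_zero]

theorem rel_pp (S T U : Sq) : pp (T.rel S) (U.rel S) = pp T U ∧ qq (T.rel S) (U.rel S) = qq T U :=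
  ⟨rel_fa S T U.m, rel_fb S T U.m⟩

end SqL
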