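import Pool.Agent.Lib.MP_e85462_co.G.Defs

open MeasureTheory Set

namespace SqL

/-- linear part of the frame coordinates -/
noncomputable def GA4_lin (S : Sq) : (ℝ × ℝ) →ₗ[ℝ] (ℝ × ℝ) :=
  Matrix.toLin (Module.Basis.finTwoProd ℝ) (Module.Basis.finTwoProd ℝ) !![S.c, S.s; -S.s, S.c]

theorem GA4_lin_apply (S : Sq) (z : ℝ × ℝ) :
    GA4_lin S z = (S.c * z.1 + S.s * z.2, -S.s * z.1 + S.c * z.2) := by
  rw [GA4_lin, Matrix.toLin_finTwoProd_apply]

theorem GA4_det (S : Sq) : LinearMap.det (GA4_lin S) = 1 := by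
  rw [GA4_lin, LinearMap.det_toLin, Matrix.det_fin_two_of]
  have := S.h
  nlinarith

theorem GA4_lin_mp (S : Sq) : MeasurePreserving (GA4_lin S) volume volume := by
  have hc : Continuous (GA4_lin S) := LinearMap.continuous_of_finiteDimensional _
  refine ⟨hc.measurable, ?_⟩
  have h := Measure.map_linearMap_addHaar_eq_smul_addHaar (volume : Measure (ℝ × ℝ))
    (f := GA4_lin S) (by rw [GA4_det]; exact one_ne_zero)
  rw [h, GA4_det]
  simp

/-- frame coordinates preserve area -/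
theorem frame_mp (S : Sq) :
    MeasurePreserving (fun z : ℝ × ℝ => (S.fa z, S.fb z)) volume volume := by
  have h := (measurePreserving_add_right (volume : Measure (ℝ × ℝ))
    (-(S.x * S.c + S.y * S.s), -(S.y * S.c - S.x * S.s))).comp (GA4_lin_mp S)
  have he : (fun z : ℝ × ℝ => (S.fa z, S.fb z)) =
      (fun x => x + (-(S.x * S.c + S.y * S.s), -(S.y * S.c - S.x * S.s))) ∘ (GA4_lin S) := by
    funext z
    simp only [Function.comp_apply, GA4_lin_apply, Sq.fa, Sq.fb, Prod.mk_add_mk, Prod.mk.injEq]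
    constructor <;> ring
  rw [he]
  exact h

theorem vol_op (S : Sq) : volume S.op = 1 := by
  have h : S.op = (fun z : ℝ × ℝ => (S.fa z, S.fb z)) ⁻¹'
      (Ioo (-(1 / 2) : ℝ) (1 / 2) ×ˢ Ioo (-(1 / 2) : ℝ) (1 / 2)) := by
    ext z
    simp only [Sq.op, mem_ofPred_eq, mem_preimage, mem_prod, mem_Ioo, abs_lt]
  rw [h, (frame_mp S).measure_preimage
    (measurableSet_Ioo.prod measurableSet_Ioo).nullMeasurableSet, Measure.volume_eq_prod,
    Measure.prod_prod, Real.volume_Ioo]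
  norm_num

theorem vol_cl (S : Sq) : volume S.cl = 1 := by
  have h : S.cl = (fun z : ℝ × ℝ => (S.fa z, S.fb z)) ⁻¹'
      (Icc (-(1 / 2) : ℝ) (1 / 2) ×ˢ Icc (-(1 / 2) : ℝ) (1 / 2)) := by
    ext z
    simp only [Sq.cl, mem_ofPred_eq, mem_preimage, mem_prod, mem_Icc, abs_le]
  rw [h, (frame_mp S).measure_preimage
    (measurableSet_Icc.prod measurableSet_Icc).nullMeasurableSet, Measure.volume_eq_prod,
    Measure.prod_prod, Real.volume_Icc]
  norm_num

end SqL
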