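import Pool.Agent.Lib.MP_e85462_co.G.A1
import Pool.Agent.Lib.MP_e85462_co.G.A3
import Pool.Agent.Lib.MP_e85462_co.G.A4

open MeasureTheory Set

namespace SqL

/-- the inverse of the frame map -/
private def GA5_inv (S : Sq) (w : ℝ × ℝ) : ℝ × ℝ :=
  (S.x + (w.1 * S.c - w.2 * S.s), S.y + (w.1 * S.s + w.2 * S.c))

private theorem GA5_fa_inv (S : Sq) (w : ℝ × ℝ) : S.fa (GA5_inv S w) = w.1 := by
  have h := S.h
  simp only [Sq.fa, GA5_inv]
  linear_combination w.1 * h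

private theorem GA5_fb_inv (S : Sq) (w : ℝ × ℝ) : S.fb (GA5_inv S w) = w.2 := by
  have h := S.h
  simp only [Sq.fb, GA5_inv]
  linear_combination w.2 * h

private theorem GA5_right (S : Sq) (w : ℝ × ℝ) :
    ((S.fa (GA5_inv S w), S.fb (GA5_inv S w)) : ℝ × ℝ) = w := by
  rw [GA5_fa_inv, GA5_fb_inv]

private theorem GA5_left (S : Sq) (z : ℝ × ℝ) : GA5_inv S (S.fa z, S.fb z) = z := by
  have h := S.h
  ext
  · simp only [Sq.fa, Sq.fb, GA5_inv]
    linear_combination (z.1 - S.x) * h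
  · simp only [Sq.fa, Sq.fb, GA5_inv]
    linear_combination (z.2 - S.y) * h

private theorem GA5_cont (S : Sq) : Continuous (fun z : ℝ × ℝ => (S.fa z, S.fb z)) := by
  simp only [Sq.fa, Sq.fb]
  fun_prop

private theorem GA5_cont_inv (S : Sq) : Continuous (GA5_inv S) := by
  unfold GA5_inv
  fun_prop

/-- the frame map as a measurable equivalence -/
private def GA5_equiv (S : Sq) : (ℝ × ℝ) ≃ᵐ (ℝ × ℝ) where
  toFun := fun z => (S.fa z, S.fb z)
  invFun := GA5_inv S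
  left_inv := GA5_left S
  right_inv := GA5_right S
  measurable_toFun := (GA5_cont S).measurable
  measurable_invFun := (GA5_cont_inv S).measurable

private theorem GA5_op (S T : Sq) (z : ℝ × ℝ) :
    (S.fa z, S.fb z) ∈ (T.rel S).op ↔ z ∈ T.op := by
  simp only [Sq.op, mem_ofPred_eq, rel_fa, rel_fb]

private theorem GA5_cl (S T : Sq) (z : ℝ × ℝ) :
    (S.fa z, S.fb z) ∈ (T.rel S).cl ↔ z ∈ T.cl := by
  simp only [Sq.cl, mem_ofPred_eq, rel_fa, rel_fb]

theorem rel_packing {ι : Type} {F : ι → Sq} (hF : Packing F) (S : Sq) :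
    Packing (fun i => (F i).rel S) := by
  intro i j hij
  rw [Set.disjoint_left]
  intro w hi hj
  rw [← GA5_right S w] at hi hj
  exact Set.disjoint_left.1 (hF i j hij) ((GA5_op S _ _).1 hi) ((GA5_op S _ _).1 hj)

theorem rot_packing {ι : Type} {F : ι → Sq} (hF : Packing F) :
    Packing (fun i => (F i).rot) := by
  intro i j hij
  simp only [rot_op]
  exact hF i j hij

private theorem GA5_disc (S T : Sq) (R : ℝ) (z : ℝ × ℝ) :
    (S.fa z, S.fb z) ∈ disc (T.rel S).m R ↔ z ∈ disc T.m R := by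
  have h := S.h
  have e : (S.fa z - S.fa T.m) ^ 2 + (S.fb z - S.fb T.m) ^ 2 =
      (z.1 - T.m.1) ^ 2 + (z.2 - T.m.2) ^ 2 := by
    simp only [Sq.fa, Sq.fb]
    linear_combination ((z.1 - T.m.1) ^ 2 + (z.2 - T.m.2) ^ 2) * h
  simp only [disc, mem_ofPred_eq]
  change (S.fa z - S.fa T.m) ^ 2 + (S.fb z - S.fb T.m) ^ 2 ≤ R ^ 2 ↔ _
  rw [e]

theorem rel_Wle {ι : Type} {F : ι → Sq} {S T : Sq} {R ω : ℝ} (h : Wle F T R ω) :
    Wle (fun i => (F i).rel S) (T.rel S) R ω := by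
  rw [Wle] at h ⊢
  have hpre : (fun z : ℝ × ℝ => (S.fa z, S.fb z)) ⁻¹'
      (unc (fun i => (F i).rel S) (disc (T.rel S).m R)) = unc F (disc T.m R) := by
    ext z
    simp only [unc, mem_preimage, mem_sdiff, GA5_disc, mem_iUnion, GA5_cl]
  have hvol := (frame_mp S).measure_preimage_emb (GA5_equiv S).measurableEmbedding
    (unc (fun i => (F i).rel S) (disc (T.rel S).m R))
  rw [← hvol, hpre]
  exact h

theorem rot_Wle {ι : Type} {F : ι → Sq} {T : Sq} {R ω : ℝ} (h : Wle F T R ω) :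
    Wle (fun i => (F i).rot) T.rot R ω := by
  rw [Wle, unc] at h ⊢
  simp only [rot_cl]
  exact h

theorem Wle_mono {ι : Type} {F : ι → Sq} {S T : Sq} {R R' ω : ℝ} (h : Wle F S R ω)
    (hR : 0 ≤ R') (hR' : R' ≤ R) (hd : dd S T ≤ (R - R') ^ 2) : Wle F T R' ω := by
  rw [Wle] at h ⊢
  refine le_trans (measure_mono ?_) h
  rintro w ⟨hw, hw2⟩
  refine ⟨?_, hw2⟩
  simp only [disc, mem_ofPred_eq, Sq.m] at hw ⊢
  rw [dd] at hd
  set a1 := w.1 - T.x with ha1
  set a2 := w.2 - T.y with ha2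
  set b1 := T.x - S.x with hb1
  set b2 := T.y - S.y with hb2
  have e1 : w.1 - S.x = a1 + b1 := by rw [ha1, hb1]; ring
  have e2 : w.2 - S.y = a2 + b2 := by rw [ha2, hb2]; ring
  rw [e1, e2]
  have hc : (a1 * b1 + a2 * b2) ^ 2 ≤ (R' * (R - R')) ^ 2 := by
    have h1 : (a1 * b1 + a2 * b2) ^ 2 ≤ (a1 ^ 2 + a2 ^ 2) * (b1 ^ 2 + b2 ^ 2) := by
      nlinarith [sq_nonneg (a1 * b2 - a2 * b1)]
    have h2 : (a1 ^ 2 + a2 ^ 2) * (b1 ^ 2 + b2 ^ 2) ≤ R' ^ 2 * (R - R') ^ 2 :=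
      mul_le_mul hw hd (by positivity) (by positivity)
    rw [mul_pow]
    exact h1.trans h2
  have hc' : a1 * b1 + a2 * b2 ≤ R' * (R - R') :=
    (abs_le_of_sq_le_sq' hc (mul_nonneg hR (by linarith))).2
  nlinarith

end SqL
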