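import Pool.Agent.Lib.MP_e85462_co.G.Defs

open MeasureTheory Set

namespace SqL

/-- cosine of the angle -/
private noncomputable def GB1_k (S T : Sq) : ℝ := S.c * T.c + S.s * T.s

private noncomputable def GB1_g (S T : Sq) : ℝ := S.c * T.s - S.s * T.c

private lemma GB1_kg (S T : Sq) : GB1_k S T ^ 2 + GB1_g S T ^ 2 = 1 := by
  have h1 := S.h
  have h2 := T.h
  have : (S.c * T.c + S.s * T.s) ^ 2 + (S.c * T.s - S.s * T.c) ^ 2 =
      (S.c ^ 2 + S.s ^ 2) * (T.c ^ 2 + T.s ^ 2) := by ring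
  rw [GB1_k, GB1_g, this, h1, h2, one_mul]

private lemma GB1_al_nonneg (S T : Sq) : 0 ≤ al S T := le_min (abs_nonneg _) (abs_nonneg _)

private lemma GB1_sum (S T : Sq) : |GB1_k S T| + |GB1_g S T| ≤ 1 + al S T := by
  have h := GB1_kg S T
  have hk : |GB1_k S T| ≤ 1 := by
    rw [abs_le]; constructor <;> nlinarith [sq_nonneg (GB1_g S T)]
  have hg : |GB1_g S T| ≤ 1 := by
    rw [abs_le]; constructor <;> nlinarith [sq_nonneg (GB1_k S T)]
  have hal : al S T = min |GB1_k S T| |GB1_g S T| := rfl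
  rw [hal]
  rcases min_choice |GB1_k S T| |GB1_g S T| with e | e <;> rw [e] <;> linarith

private lemma GB1_pos (S T : Sq) : 0 < |GB1_k S T| + |GB1_g S T| := by
  have h := GB1_kg S T
  by_contra hc
  push Not at hc
  have h1 := abs_nonneg (GB1_k S T)
  have h2 := abs_nonneg (GB1_g S T)
  have e1 : |GB1_k S T| = 0 := by linarith
  have e2 : |GB1_g S T| = 0 := by linarith
  rw [abs_eq_zero] at e1 e2
  rw [e1, e2] at h
  norm_num at h

/-- the midpoint of the two centres -/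
private noncomputable def GB1_mid (S T : Sq) : ℝ × ℝ := ((S.x + T.x) / 2, (S.y + T.y) / 2)

private lemma GB1_fa (S T : Sq) : S.fa (GB1_mid S T) = pp S T / 2 := by
  simp only [Sq.fa, GB1_mid, pp, Sq.m]; ring

private lemma GB1_fb (S T : Sq) : S.fb (GB1_mid S T) = qq S T / 2 := by
  simp only [Sq.fb, GB1_mid, qq, Sq.m]; ring

private lemma GB1_fa' (S T : Sq) :
    T.fa (GB1_mid S T) = -(pp S T * GB1_k S T + qq S T * GB1_g S T) / 2 := by
  have h1 := S.h
  simp only [Sq.fa, Sq.fb, GB1_mid, pp, qq, Sq.m, GB1_k, GB1_g]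
  have e : -(((T.x - S.x) * S.c + (T.y - S.y) * S.s) * (S.c * T.c + S.s * T.s) +
      ((T.y - S.y) * S.c - (T.x - S.x) * S.s) * (S.c * T.s - S.s * T.c)) / 2 =
      -((S.c ^ 2 + S.s ^ 2) * ((T.x - S.x) * T.c + (T.y - S.y) * T.s)) / 2 := by ring
  rw [e, h1]; ring

private lemma GB1_fb' (S T : Sq) :
    T.fb (GB1_mid S T) = -(-(pp S T * GB1_g S T) + qq S T * GB1_k S T) / 2 := by
  have h1 := S.h
  simp only [Sq.fa, Sq.fb, GB1_mid, pp, qq, Sq.m, GB1_k, GB1_g]
  have e : -(-(((T.x - S.x) * S.c + (T.y - S.y) * S.s) * (S.c * T.s - S.s * T.c)) +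
      ((T.y - S.y) * S.c - (T.x - S.x) * S.s) * (S.c * T.c + S.s * T.s)) / 2 =
      -((S.c ^ 2 + S.s ^ 2) * ((T.y - S.y) * T.c - (T.x - S.x) * T.s)) / 2 := by ring
  rw [e, h1]; ring

private lemma GB1_half {u : ℝ} (h : |u| < 1) : |u / 2| < 1 / 2 := by
  rw [abs_div, abs_of_pos (by norm_num : (0 : ℝ) < 2)]
  linarith

private lemma GB1_neg {u : ℝ} (h : |u| < 1) : |-u / 2| < 1 / 2 := by
  rw [abs_div, abs_neg, abs_of_pos (by norm_num : (0 : ℝ) < 2)]
  linarith

private lemma GB1_lt {p q k g M : ℝ} (hp : |p| < M) (hq : |q| < M) (hkg : 0 < |k| + |g|) :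
    |p * k + q * g| < M * (|k| + |g|) := by
  have h1 : |p * k + q * g| ≤ |p| * |k| + |q| * |g| := by
    refine (abs_add_le _ _).trans ?_
    rw [abs_mul, abs_mul]
  have hk := abs_nonneg k
  have hg := abs_nonneg g
  rcases eq_or_lt_of_le hk with e | e
  · have : 0 < |g| := by linarith
    have h2 : |q| * |g| < M * |g| := mul_lt_mul_of_pos_right hq this
    have h3 : |p| * |k| ≤ M * |k| := mul_le_mul_of_nonneg_right hp.le hk
    nlinarith
  · have h2 : |p| * |k| < M * |k| := mul_lt_mul_of_pos_right hp e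
    have h3 : |q| * |g| ≤ M * |g| := mul_le_mul_of_nonneg_right hq.le hg
    nlinarith

/-- separation -/
theorem sep {S T : Sq} (h : Disjoint S.op T.op) : 1 - al S T ≤ max |pp S T| |qq S T| := by
  by_contra hc
  push Not at hc
  obtain ⟨hp, hq⟩ := max_lt_iff.1 hc
  have hal := GB1_al_nonneg S T
  have hsum := GB1_sum S T
  have hpos := GB1_pos S T
  have hM : 0 < 1 - al S T := lt_of_le_of_lt (abs_nonneg _) hp
  have hprod : (1 - al S T) * (|GB1_k S T| + |GB1_g S T|) ≤ 1 := by nlinarith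
  have hmS : GB1_mid S T ∈ S.op := by
    refine ⟨?_, ?_⟩
    · rw [GB1_fa]; exact GB1_half (by linarith)
    · rw [GB1_fb]; exact GB1_half (by linarith)
  have hmT : GB1_mid S T ∈ T.op := by
    refine ⟨?_, ?_⟩
    · rw [GB1_fa']
      exact GB1_neg (lt_of_lt_of_le (GB1_lt hp hq hpos) hprod)
    · rw [GB1_fb']
      have h1 := GB1_lt (p := -pp S T) (q := qq S T) (k := GB1_g S T) (g := GB1_k S T)
        (M := 1 - al S T) (by rw [abs_neg]; exact hp) hq (by linarith)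
      have e : -pp S T * GB1_g S T + qq S T * GB1_k S T =
        -(pp S T * GB1_g S T) + qq S T * GB1_k S T := by ring
      rw [e] at h1
      refine GB1_neg (lt_of_lt_of_le h1 ?_)
      linarith [hprod, add_comm |GB1_k S T| |GB1_g S T|,
        congrArg (fun t => (1 - al S T) * t) (add_comm |GB1_k S T| |GB1_g S T|)]
  exact Set.disjoint_left.1 h hmS hmT

private lemma GB1_sq {u v : ℝ} (h : u ^ 2 + v ^ 2 < 1 / 4) : |u| < 1 / 2 ∧ |v| < 1 / 2 := by
  constructor
  · rw [abs_lt]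
    constructor <;> nlinarith [sq_nonneg v]
  · rw [abs_lt]
    constructor <;> nlinarith [sq_nonneg u]

/-- centres of disjoint squares -/
theorem dist_one {S T : Sq} (h : Disjoint S.op T.op) : 1 ≤ dd S T := by
  by_contra hc
  push Not at hc
  have h1 := S.h
  have h2 := T.h
  have hmS : GB1_mid S T ∈ S.op := by
    refine GB1_sq ?_
    have e : S.fa (GB1_mid S T) ^ 2 + S.fb (GB1_mid S T) ^ 2 = dd S T / 4 := by
      have e2 : S.fa (GB1_mid S T) ^ 2 + S.fb (GB1_mid S T) ^ 2 =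
          (S.c ^ 2 + S.s ^ 2) * ((T.x - S.x) ^ 2 + (T.y - S.y) ^ 2) / 4 := by
        simp only [Sq.fa, Sq.fb, GB1_mid]; ring
      rw [e2, h1, one_mul, dd]
    rw [e]; linarith
  have hmT : GB1_mid S T ∈ T.op := by
    refine GB1_sq ?_
    have e : T.fa (GB1_mid S T) ^ 2 + T.fb (GB1_mid S T) ^ 2 = dd S T / 4 := by
      have e2 : T.fa (GB1_mid S T) ^ 2 + T.fb (GB1_mid S T) ^ 2 =
          (T.c ^ 2 + T.s ^ 2) * ((T.x - S.x) ^ 2 + (T.y - S.y) ^ 2) / 4 := by
        simp only [Sq.fa, Sq.fb, GB1_mid]; ring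
      rw [e2, h2, one_mul, dd]
    rw [e]; linarith
  exact Set.disjoint_left.1 h hmS hmT

private lemma GB1_le {u v k g : ℝ} (hu : |u| ≤ 1 / 2) (hv : |v| ≤ 1 / 2) :
    |u * k + v * g| ≤ (|k| + |g|) / 2 := by
  have h1 : |u * k + v * g| ≤ |u| * |k| + |v| * |g| := by
    refine (abs_add_le _ _).trans ?_
    rw [abs_mul, abs_mul]
  have h2 : |u| * |k| ≤ 1 / 2 * |k| := mul_le_mul_of_nonneg_right hu (abs_nonneg k)
  have h3 : |v| * |g| ≤ 1 / 2 * |g| := mul_le_mul_of_nonneg_right hv (abs_nonneg g)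
  linarith

/-- extent of `T` in the frame of `S` -/
theorem ext {S T : Sq} {z : ℝ × ℝ} (hz : z ∈ T.cl) :
    |S.fa z - pp S T| ≤ (1 + al S T) / 2 ∧ |S.fb z - qq S T| ≤ (1 + al S T) / 2 := by
  have h2 := T.h
  obtain ⟨hu, hv⟩ := hz
  have hsum := GB1_sum S T
  have ea : S.fa z - pp S T = T.fa z * GB1_k S T + (-T.fb z) * GB1_g S T := by
    have e : T.fa z * GB1_k S T + (-T.fb z) * GB1_g S T =
        (T.c ^ 2 + T.s ^ 2) * ((z.1 - T.x) * S.c + (z.2 - T.y) * S.s) := by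
      simp only [Sq.fa, Sq.fb, GB1_k, GB1_g]; ring
    rw [e, h2]
    simp only [Sq.fa, pp, Sq.m]; ring
  have eb : S.fb z - qq S T = T.fa z * GB1_g S T + T.fb z * GB1_k S T := by
    have e : T.fa z * GB1_g S T + T.fb z * GB1_k S T =
        (T.c ^ 2 + T.s ^ 2) * ((z.2 - T.y) * S.c - (z.1 - T.x) * S.s) := by
      simp only [Sq.fa, Sq.fb, GB1_k, GB1_g]; ring
    rw [e, h2]
    simp only [Sq.fb, qq, Sq.m]; ring
  constructor
  · rw [ea]
    refine (GB1_le hu (by rwa [abs_neg])).trans ?_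
    linarith
  · rw [eb]
    refine (GB1_le hu hv).trans ?_
    linarith

end SqL
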