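import Pool.Agent.Lib.MP_e85462_co.G.Defs

open MeasureTheory Set

namespace SqL

theorem GB2_fa (S T : Sq) (w z : ℝ × ℝ) : T.fa w - T.fa z =
    (S.fa w - S.fa z) * (S.c * T.c + S.s * T.s) + (S.fb w - S.fb z) * (S.c * T.s - S.s * T.c) := by
  have h := S.h
  simp only [Sq.fa, Sq.fb]
  linear_combination (-((w.1 - z.1) * T.c + (w.2 - z.2) * T.s)) * h

theorem GB2_fb (S T : Sq) (w z : ℝ × ℝ) : T.fb w - T.fb z =
    -(S.fa w - S.fa z) * (S.c * T.s - S.s * T.c) + (S.fb w - S.fb z) * (S.c * T.c + S.s * T.s) := by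
  have h := S.h
  simp only [Sq.fa, Sq.fb]
  linear_combination (-((w.2 - z.2) * T.c - (w.1 - z.1) * T.s)) * h

theorem GB2_pt (S : Sq) (A B : ℝ) : ∃ w : ℝ × ℝ, S.fa w = A ∧ S.fb w = B := by
  have h := S.h
  refine ⟨(S.x + A * S.c - B * S.s, S.y + A * S.s + B * S.c), ?_, ?_⟩
  · simp only [Sq.fa]
    linear_combination A * h
  · simp only [Sq.fb]
    linear_combination B * h

theorem GB2_conv {u v e : ℝ} (hu : |u| ≤ 1 / 2) (hv : |v| ≤ 1 / 2) (huv : u ≠ v) (h0 : 0 < e)
    (h1 : e < 1) : |u + e * (v - u)| < 1 / 2 := by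
  rw [abs_le] at hu hv
  rw [abs_lt]
  rcases lt_or_gt_of_ne huv with h | h
  · have a1 : 0 < e * (v - u) := mul_pos h0 (by linarith)
    have a2 : 0 < (1 - e) * (v - u) := mul_pos (by linarith) (by linarith)
    constructor
    · linarith
    · nlinarith
  · have a1 : 0 < e * (u - v) := mul_pos h0 (by linarith)
    have a2 : 0 < (1 - e) * (u - v) := mul_pos (by linarith) (by linarith)
    constructor
    · nlinarith
    · linarith

/-- the main step: `L |k g| ≤ x` -/
theorem GB2_main {S T : Sq} (h : Disjoint S.op T.op) {z1 z2 : ℝ × ℝ} (h1 : z1 ∈ T.cl)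
    (h2 : z2 ∈ T.cl) {x : ℝ} (hx : 0 ≤ x) (e1 : S.fa z1 = 1 / 2 + x)
    (e2 : S.fa z2 = 1 / 2 + x) (b1 : |S.fb z1| ≤ 1 / 2) (b2 : |S.fb z2| ≤ 1 / 2)
    (hL : 0 < S.fb z2 - S.fb z1) :
    (S.fb z2 - S.fb z1) * |(S.c * T.c + S.s * T.s) * (S.c * T.s - S.s * T.c)| ≤ x := by
  by_contra hcon
  push Not at hcon
  set k := S.c * T.c + S.s * T.s with hk
  set g := S.c * T.s - S.s * T.c with hg
  set L := S.fb z2 - S.fb z1 with hLd
  have hkg : k ^ 2 + g ^ 2 = 1 := by
    have h3 := S.h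
    have h4 := T.h
    calc k ^ 2 + g ^ 2 = (S.c ^ 2 + S.s ^ 2) * (T.c ^ 2 + T.s ^ 2) := by rw [hk, hg]; ring
      _ = 1 := by rw [h3, h4, one_mul]
  set M := L * |k * g| with hM
  have hMpos : 0 < M := lt_of_le_of_lt hx hcon
  have hkgne : k * g ≠ 0 := by
    intro h0
    rw [hM, h0, abs_zero, mul_zero] at hMpos
    exact lt_irrefl _ hMpos
  have hkne : k ≠ 0 := left_ne_zero_of_mul hkgne
  have hgne : g ≠ 0 := right_ne_zero_of_mul hkgne
  have hk2 : 0 < k ^ 2 := by positivity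
  have hg2 : 0 < g ^ 2 := by positivity
  have hL1 : L ≤ 1 := by
    rw [abs_le] at b1 b2
    linarith
  have hkgle : |k * g| ≤ 1 / 2 := by
    rw [abs_le]
    constructor <;> nlinarith [sq_nonneg (k - g), sq_nonneg (k + g)]
  have hM12 : M ≤ 1 / 2 := by
    calc M ≤ 1 * (1 / 2) := mul_le_mul hL1 hkgle (abs_nonneg _) (by norm_num)
      _ = 1 / 2 := by ring
  -- the parameter
  obtain ⟨e, he0, he1, hed⟩ : ∃ e : ℝ, 0 < e ∧ e < 1 ∧ x < (1 - 2 * e) * M := by
    refine ⟨(M - x) / (4 * M), div_pos (by linarith) (by linarith), ?_, ?_⟩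
    · rw [div_lt_one (by linarith)]
      linarith
    · have : (1 - 2 * ((M - x) / (4 * M))) * M = (M + x) / 2 := by
        field_simp
        ring
      rw [this]
      linarith
  have hed2 : (1 - 2 * e) * M ≤ 1 / 2 := by
    have := mul_pos he0 hMpos
    linarith
  have huv := GB2_fa S T z2 z1
  have hvv := GB2_fb S T z2 z1
  rw [← hk, ← hg, e1, e2, ← hLd] at huv hvv
  have hu12 : T.fa z1 ≠ T.fa z2 := by
    intro h0
    rw [h0] at huv
    have : L * g = 0 := by linarith
    rcases mul_eq_zero.1 this with h5 | h5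
    · exact hL.ne' h5
    · exact hgne h5
  have hv12 : T.fb z1 ≠ T.fb z2 := by
    intro h0
    rw [h0] at hvv
    have : L * k = 0 := by linarith
    rcases mul_eq_zero.1 this with h5 | h5
    · exact hL.ne' h5
    · exact hkne h5
  have hb : ∀ q : ℝ, 0 < q → q < 1 → |S.fb z1 + L * q| < 1 / 2 := by
    intro q hq0 hq1
    rw [abs_le] at b1 b2
    rw [abs_lt]
    have a1 : 0 < L * q := mul_pos hL hq0
    have a2 : 0 < L * (1 - q) := mul_pos hL (by linarith)
    constructor
    · linarith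
    · have : S.fb z1 + L * q = S.fb z2 - L * (1 - q) := by rw [hLd]; ring
      rw [this]
      linarith
  rcases lt_or_gt_of_ne hkgne with hneg | hpos
  · have hMe : M = -(L * (k * g)) := by rw [hM, abs_of_neg hneg]; ring
    obtain ⟨w, hw1, hw2⟩ := GB2_pt S (1 / 2 + x - (1 - 2 * e) * M)
      (S.fb z1 + L * (e * k ^ 2 + (1 - e) * g ^ 2))
    have hTa := GB2_fa S T w z1
    have hTb := GB2_fb S T w z1
    rw [← hk, ← hg, hw1, hw2, e1] at hTa hTb
    have e3 : T.fa w = T.fa z1 + (1 - e) * (T.fa z2 - T.fa z1) := by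
      rw [huv]
      have : T.fa w = T.fa z1 + (T.fa w - T.fa z1) := by ring
      rw [this, hTa, hMe]
      linear_combination L * g * (1 - e) * hkg
    have e4 : T.fb w = T.fb z1 + e * (T.fb z2 - T.fb z1) := by
      rw [hvv]
      have : T.fb w = T.fb z1 + (T.fb w - T.fb z1) := by ring
      rw [this, hTb, hMe]
      linear_combination L * k * e * hkg
    have m1 : w ∈ S.op := by
      refine ⟨?_, ?_⟩
      · rw [hw1, abs_lt]
        constructor <;> linarith
      · rw [hw2]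
        refine hb _ ?_ ?_
        · have := mul_pos he0 hk2
          have := mul_pos (sub_pos.2 he1) hg2
          linarith
        · have := mul_pos he0 hg2
          have := mul_pos (sub_pos.2 he1) hk2
          linarith
    have m2 : w ∈ T.op := by
      refine ⟨?_, ?_⟩
      · rw [e3]
        exact GB2_conv h1.1 h2.1 hu12 (by linarith) (by linarith)
      · rw [e4]
        exact GB2_conv h1.2 h2.2 hv12 he0 he1
    exact (Set.disjoint_left.1 h) m1 m2
  · have hMe : M = L * (k * g) := by rw [hM, abs_of_pos hpos]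
    obtain ⟨w, hw1, hw2⟩ := GB2_pt S (1 / 2 + x - (1 - 2 * e) * M)
      (S.fb z1 + L * ((1 - e) * k ^ 2 + e * g ^ 2))
    have hTa := GB2_fa S T w z1
    have hTb := GB2_fb S T w z1
    rw [← hk, ← hg, hw1, hw2, e1] at hTa hTb
    have e3 : T.fa w = T.fa z1 + e * (T.fa z2 - T.fa z1) := by
      rw [huv]
      have : T.fa w = T.fa z1 + (T.fa w - T.fa z1) := by ring
      rw [this, hTa, hMe]
      linear_combination L * g * e * hkg
    have e4 : T.fb w = T.fb z1 + (1 - e) * (T.fb z2 - T.fb z1) := by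
      rw [hvv]
      have : T.fb w = T.fb z1 + (T.fb w - T.fb z1) := by ring
      rw [this, hTb, hMe]
      linear_combination L * k * (1 - e) * hkg
    have m1 : w ∈ S.op := by
      refine ⟨?_, ?_⟩
      · rw [hw1, abs_lt]
        constructor <;> linarith
      · rw [hw2]
        refine hb _ ?_ ?_
        · have := mul_pos he0 hg2
          have := mul_pos (sub_pos.2 he1) hk2
          linarith
        · have := mul_pos he0 hk2
          have := mul_pos (sub_pos.2 he1) hg2
          linarith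
    have m2 : w ∈ T.op := by
      refine ⟨?_, ?_⟩
      · rw [e3]
        exact GB2_conv h1.1 h2.1 hu12 he0 he1
      · rw [e4]
        exact GB2_conv h1.2 h2.2 hv12 (by linarith) (by linarith)
    exact (Set.disjoint_left.1 h) m1 m2

/-- chord lemma -/
theorem chord {S T : Sq} (h : Disjoint S.op T.op) {z1 z2 : ℝ × ℝ} (h1 : z1 ∈ T.cl)
    (h2 : z2 ∈ T.cl) {x : ℝ} (hx : 0 ≤ x) (hx' : x ≤ 1 / 2) (e1 : S.fa z1 = 1 / 2 + x)
    (e2 : S.fa z2 = 1 / 2 + x) (b1 : |S.fb z1| ≤ 1 / 2) (b2 : |S.fb z2| ≤ 1 / 2) :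
    (S.fb z2 - S.fb z1) * al S T ≤ 3 / 2 * x := by
  have hal : 0 ≤ al S T := le_min (abs_nonneg _) (abs_nonneg _)
  rcases le_or_gt (S.fb z2 - S.fb z1) 0 with hL | hL
  · have := mul_nonpos_of_nonpos_of_nonneg hL hal
    linarith
  · have hmain := GB2_main h h1 h2 hx e1 e2 b1 b2 hL
    have h3 := S.h
    have h4 := T.h
    have hkg : (S.c * T.c + S.s * T.s) ^ 2 + (S.c * T.s - S.s * T.c) ^ 2 = 1 := by
      calc (S.c * T.c + S.s * T.s) ^ 2 + (S.c * T.s - S.s * T.c) ^ 2
          = (S.c ^ 2 + S.s ^ 2) * (T.c ^ 2 + T.s ^ 2) := by ring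
        _ = 1 := by rw [h3, h4, one_mul]
    have hal2 : al S T ≤ 3 / 2 * |(S.c * T.c + S.s * T.s) * (S.c * T.s - S.s * T.c)| := by
      rw [al, abs_mul]
      set K := |S.c * T.c + S.s * T.s| with hK
      set G := |S.c * T.s - S.s * T.c| with hG
      have hKG : K ^ 2 + G ^ 2 = 1 := by rw [hK, hG, sq_abs, sq_abs]; exact hkg
      have hK0 : 0 ≤ K := abs_nonneg _
      have hG0 : 0 ≤ G := abs_nonneg _
      rcases le_total K G with hle | hle
      · rw [min_eq_left hle]
        have : 2 / 3 ≤ G := by nlinarith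
        nlinarith
      · rw [min_eq_right hle]
        have : 2 / 3 ≤ K := by nlinarith
        nlinarith
    have := mul_le_mul_of_nonneg_left hal2 hL.le
    linarith

end SqL
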