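import Pool.Agent.Lib.MP_e85462_co.G.A1

open MeasureTheory Set

namespace SqL

/-- cosine and sine of the angle between the frames -/
theorem GB3_sq (S T : Sq) :
    (S.c * T.c + S.s * T.s) ^ 2 + (S.c * T.s - S.s * T.c) ^ 2 = 1 := by
  have h1 := S.h
  have h2 := T.h
  have : (S.c * T.c + S.s * T.s) ^ 2 + (S.c * T.s - S.s * T.c) ^ 2 =
    (S.c ^ 2 + S.s ^ 2) * (T.c ^ 2 + T.s ^ 2) := by ring
  rw [this, h1, h2, one_mul]

theorem GB3_pp (S T U V : Sq) : pp T V - pp T U =
    (pp S V - pp S U) * (S.c * T.c + S.s * T.s) +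
      (qq S V - qq S U) * (S.c * T.s - S.s * T.c) := by
  have h1 := S.h
  simp only [pp, qq, Sq.fa, Sq.fb, Sq.m]
  linear_combination (-(V.x - U.x) * T.c - (V.y - U.y) * T.s) * h1

theorem GB3_qq (S T U V : Sq) : qq T V - qq T U =
    (qq S V - qq S U) * (S.c * T.c + S.s * T.s) -
      (pp S V - pp S U) * (S.c * T.s - S.s * T.c) := by
  have h1 := S.h
  simp only [pp, qq, Sq.fa, Sq.fb, Sq.m]
  linear_combination (-(V.y - U.y) * T.c + (V.x - U.x) * T.s) * h1

/-- the estimate in a rotated frame -/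
theorem GB3_num {C s a b e : ℝ} (h : C ^ 2 + s ^ 2 = 1) (hC : 0 ≤ C) (hs : |s| = e) :
    |a * C + b * s - a| ≤ 2 * e * (|a| + |b|) ∧ |b * C - a * s - b| ≤ 2 * e * (|a| + |b|) := by
  have he : 0 ≤ e := hs ▸ abs_nonneg s
  have hse : s ^ 2 = e ^ 2 := by rw [← hs, sq_abs]
  have hC1 : C ≤ 1 := by nlinarith [sq_nonneg s]
  have he1 : e ≤ 1 := by nlinarith [sq_nonneg C]
  have h1C : |C - 1| ≤ e := by
    rw [abs_le]
    constructor
    · nlinarith
    · linarith
  have ha := abs_nonneg a
  have hb := abs_nonneg b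
  constructor
  · calc |a * C + b * s - a| = |a * (C - 1) + b * s| := by ring_nf
      _ ≤ |a * (C - 1)| + |b * s| := abs_add_le _ _
      _ = |a| * |C - 1| + |b| * e := by rw [abs_mul, abs_mul, hs]
      _ ≤ |a| * e + |b| * e := by
          have := mul_le_mul_of_nonneg_left h1C ha
          linarith
      _ ≤ 2 * e * (|a| + |b|) := by nlinarith [mul_nonneg he ha, mul_nonneg he hb]
  · calc |b * C - a * s - b| = |b * (C - 1) + (- (a * s))| := by ring_nf
      _ ≤ |b * (C - 1)| + |- (a * s)| := abs_add_le _ _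
      _ = |b| * |C - 1| + |a| * e := by rw [abs_neg, abs_mul, abs_mul, hs]
      _ ≤ |b| * e + |a| * e := by
          have := mul_le_mul_of_nonneg_left h1C hb
          linarith
      _ ≤ 2 * e * (|a| + |b|) := by nlinarith [mul_nonneg he ha, mul_nonneg he hb]

theorem GB3_aux (S T' U V : Sq) {e : ℝ} (hC : 0 ≤ S.c * T'.c + S.s * T'.s)
    (hs : |S.c * T'.s - S.s * T'.c| = e) :
    |(pp T' V - pp T' U) - (pp S V - pp S U)| ≤
        2 * e * (|pp S V - pp S U| + |qq S V - qq S U|) ∧
      |(qq T' V - qq T' U) - (qq S V - qq S U)| ≤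
        2 * e * (|pp S V - pp S U| + |qq S V - qq S U|) := by
  rw [GB3_pp S T' U V, GB3_qq S T' U V]
  exact GB3_num (GB3_sq S T') hC hs

/-- change of frame for the difference of two centres -/
theorem frame_change (S T U V : Sq) :
    ∃ k : ℕ, |(pp (Nat.iterate Sq.rot k T) V - pp (Nat.iterate Sq.rot k T) U) -
        (pp S V - pp S U)| ≤ 2 * al S T * (|pp S V - pp S U| + |qq S V - qq S U|) ∧
      |(qq (Nat.iterate Sq.rot k T) V - qq (Nat.iterate Sq.rot k T) U) -
        (qq S V - qq S U)| ≤ 2 * al S T * (|pp S V - pp S U| + |qq S V - qq S U|) := by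
  rcases le_total |S.c * T.s - S.s * T.c| |S.c * T.c + S.s * T.s| with h | h
  · have hal : al S T = |S.c * T.s - S.s * T.c| := min_eq_right h
    rcases le_total 0 (S.c * T.c + S.s * T.s) with h0 | h0
    · refine ⟨0, ?_⟩
      exact GB3_aux S T U V h0 hal.symm
    · refine ⟨2, ?_⟩
      have hc : (Nat.iterate Sq.rot 2 T).c = -T.c := rfl
      have hs : (Nat.iterate Sq.rot 2 T).s = -T.s := rfl
      refine GB3_aux S (Nat.iterate Sq.rot 2 T) U V ?_ ?_
      · rw [hc, hs]; linarith
      · rw [hc, hs, hal, ← abs_neg]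
        congr 1
        ring
  · have hal : al S T = |S.c * T.c + S.s * T.s| := min_eq_left h
    rcases le_total 0 (S.c * T.s - S.s * T.c) with h0 | h0
    · refine ⟨3, ?_⟩
      have hc : (Nat.iterate Sq.rot 3 T).c = -(-T.s) := rfl
      have hs : (Nat.iterate Sq.rot 3 T).s = -T.c := rfl
      refine GB3_aux S (Nat.iterate Sq.rot 3 T) U V ?_ ?_
      · rw [hc, hs]; linarith
      · rw [hc, hs, hal, ← abs_neg]
        congr 1
        ring
    · refine ⟨1, ?_⟩
      have hc : (Nat.iterate Sq.rot 1 T).c = -T.s := rfl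
      have hs : (Nat.iterate Sq.rot 1 T).s = T.c := rfl
      refine GB3_aux S (Nat.iterate Sq.rot 1 T) U V ?_ ?_
      · rw [hc, hs]; linarith
      · rw [hc, hs, hal]
        congr 1
        ring

/-- comparison of l1 norms -/
theorem n1_change (S T U : Sq) :
    n1 T U ≤ (1 + al S T) * (|pp S U - pp S T| + |qq S U - qq S T|) := by
  have hp0 : pp T T = 0 := by simp [pp, Sq.fa, Sq.m]
  have hq0 : qq T T = 0 := by simp [qq, Sq.fb, Sq.m]
  have h1 := GB3_pp S T T U
  have h2 := GB3_qq S T T U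
  rw [hp0, sub_zero] at h1
  rw [hq0, sub_zero] at h2
  have hsq := GB3_sq S T
  unfold n1 al
  rw [h1, h2]
  generalize S.c * T.c + S.s * T.s = C at *
  generalize S.c * T.s - S.s * T.c = s at *
  generalize pp S U - pp S T = a at *
  generalize qq S U - qq S T = b at *
  have ha := abs_nonneg a
  have hb := abs_nonneg b
  have hC1 : |C| ≤ 1 := by
    rw [abs_le]
    constructor <;> nlinarith [sq_nonneg s]
  have hs1 : |s| ≤ 1 := by
    rw [abs_le]
    constructor <;> nlinarith [sq_nonneg C]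
  have hcs : |C| + |s| ≤ 1 + min |C| |s| := by
    rcases le_total |C| |s| with h | h
    · rw [min_eq_left h]; linarith
    · rw [min_eq_right h]; linarith
  calc |a * C + b * s| + |b * C - a * s|
      ≤ (|a * C| + |b * s|) + (|b * C| + |a * s|) := add_le_add (abs_add_le _ _) (abs_sub _ _)
    _ = (|C| + |s|) * (|a| + |b|) := by
        rw [abs_mul, abs_mul, abs_mul, abs_mul]; ring
    _ ≤ (1 + min |C| |s|) * (|a| + |b|) := mul_le_mul_of_nonneg_right hcs (by positivity)

end SqL
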