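import Pool.Agent.Lib.MP_e85462_co.G.A2
import Pool.Agent.Lib.MP_e85462_co.G.B1
import Pool.Agent.Lib.MP_e85462_co.G.B3

open MeasureTheory Set

namespace SqL

theorem GB4_rot_x (S : Sq) : S.rot.x = S.x := rfl

theorem GB4_rot_y (S : Sq) : S.rot.y = S.y := rfl

theorem GB4_iter (T U : Sq) (k : ℕ) :
    (Nat.iterate Sq.rot k T).x = T.x ∧ (Nat.iterate Sq.rot k T).y = T.y ∧
      max |pp (Nat.iterate Sq.rot k T) U| |qq (Nat.iterate Sq.rot k T) U|
        = max |pp T U| |qq T U| := by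
  induction k with
  | zero => exact ⟨rfl, rfl, rfl⟩
  | succ k ih =>
    obtain ⟨h1, h2, h3⟩ := ih
    rw [Function.iterate_succ_apply']
    refine ⟨?_, ?_, ?_⟩
    · rw [GB4_rot_x, h1]
    · rw [GB4_rot_y, h2]
    · rw [pp_rot, qq_rot, abs_neg, max_comm, h3]

/-- separation of two squares seen from a third one -/
theorem sep' {S T U : Sq} (h : Disjoint T.op U.op) {θ : ℝ} (h1 : al S T ≤ θ) (h2 : al S U ≤ θ)
    (hθ : θ ≤ 1 / 100) (h3 : |pp S T - pp S U| + |qq S T - qq S U| ≤ 4) :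
    1 - 10 * θ ≤ max |pp S T - pp S U| |qq S T - qq S U| := by
  have hal : al T U ≤ 2 * θ := by
    have h4 := al_tri T S U
    rw [al_comm T S] at h4
    linarith
  have hsep := sep h
  obtain ⟨k, hk1, hk2⟩ := frame_change S T T U
  obtain ⟨hx, hy, hmax⟩ := GB4_iter T U k
  set T' := Nat.iterate Sq.rot k T with hT'
  have hp0 : pp T' T = 0 := by
    simp only [pp, Sq.fa, Sq.m, hx, hy]
    ring
  have hq0 : qq T' T = 0 := by
    simp only [qq, Sq.fb, Sq.m, hx, hy]
    ring
  rw [hp0, sub_zero] at hk1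
  rw [hq0, sub_zero] at hk2
  have h5 : |pp S U - pp S T| + |qq S U - qq S T| ≤ 4 := by
    rw [abs_sub_comm (pp S U), abs_sub_comm (qq S U)]
    exact h3
  have h6 : 2 * al S T * (|pp S U - pp S T| + |qq S U - qq S T|) ≤ 8 * θ := by
    have h7 := al_nonneg S T
    have h8 : 0 ≤ |pp S U - pp S T| + |qq S U - qq S T| := by positivity
    nlinarith
  have h9 : |pp T' U| ≤ |pp S U - pp S T| + 8 * θ := by
    have := abs_sub_abs_le_abs_sub (pp T' U) (pp S U - pp S T)
    linarith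
  have h10 : |qq T' U| ≤ |qq S U - qq S T| + 8 * θ := by
    have := abs_sub_abs_le_abs_sub (qq T' U) (qq S U - qq S T)
    linarith
  rw [abs_sub_comm (pp S T), abs_sub_comm (qq S T)]
  rw [← hmax] at hsep
  rcases max_cases |pp T' U| |qq T' U| with ⟨he, _⟩ | ⟨he, _⟩
  · rw [he] at hsep
    have := le_max_left |pp S U - pp S T| |qq S U - qq S T|
    linarith
  · rw [he] at hsep
    have := le_max_right |pp S U - pp S T| |qq S U - qq S T|
    linarith

end SqL
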