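import Pool.Agent.Lib.MP_e85462_co.G.Defs

open MeasureTheory Set

namespace SqL

private lemma GB5_core {c s C D θ : ℝ} (h1 : c ^ 2 + s ^ 2 = 1) (h2 : C ^ 2 + D ^ 2 = 1)
    (hS : |s| ≤ c) (hT : |D| ≤ C) (hs : |s| ≤ 1 / 5) (hθ : θ ≤ 1 / 100)
    (h : min |c * C + s * D| |c * D - s * C| ≤ θ) :
    |C - c| ≤ 2 * θ ∧ |D - s| ≤ 2 * θ ∧ |c * D - s * C| ≤ θ := by
  have hs2 : s ^ 2 ≤ 1 / 25 := by
    have := abs_le.1 hs
    nlinarith
  have hc0 : 0 ≤ c := (abs_nonneg s).trans hS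
  have hC0 : 0 ≤ C := (abs_nonneg D).trans hT
  have hc1 : c ≤ 1 := by nlinarith [sq_nonneg s]
  have hc : 97 / 100 ≤ c := by
    by_contra hlt
    push Not at hlt
    nlinarith
  have hD2 : D ^ 2 ≤ C ^ 2 := by
    rw [← sq_abs D]
    exact pow_le_pow_left₀ (abs_nonneg D) hT 2
  have hC : 7 / 10 ≤ C := by
    by_contra hlt
    push Not at hlt
    nlinarith
  set k : ℝ := c * C + s * D with hk
  set g : ℝ := c * D - s * C with hg
  have hkg : k ^ 2 + g ^ 2 = 1 := by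
    have : k ^ 2 + g ^ 2 = (c ^ 2 + s ^ 2) * (C ^ 2 + D ^ 2) := by rw [hk, hg]; ring
    rw [this, h1, h2, one_mul]
  have hsD : |s * D| ≤ 1 / 5 * C := by
    rw [abs_mul]
    exact mul_le_mul hs hT (abs_nonneg D) (by norm_num)
  have hk1 : 1 / 2 < k := by
    have h3 : -(1 / 5 * C) ≤ s * D := (abs_le.1 hsD).1
    have h4 : 97 / 100 * C ≤ c * C := mul_le_mul_of_nonneg_right hc hC0
    rw [hk]
    linarith
  have hgθ : |g| ≤ θ := by
    rcases min_le_iff.1 h with h3 | h3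
    · exfalso
      have h4 : k ≤ |k| := le_abs_self k
      linarith
    · exact h3
  have hθ0 : 0 ≤ θ := (abs_nonneg g).trans hgθ
  have hg2 : g ^ 2 ≤ θ ^ 2 := by
    rw [← sq_abs g]
    exact pow_le_pow_left₀ (abs_nonneg g) hgθ 2
  have hkle : k ≤ 1 := by nlinarith [sq_nonneg g]
  have h1k : 1 - k ≤ θ ^ 2 := by nlinarith
  have h1k0 : 0 ≤ 1 - k := by linarith
  have hθ2 : θ ^ 2 ≤ θ / 100 := by nlinarith
  have eC : C - c = -(c * (1 - k)) - s * g := by
    have : C = c * k - s * g := by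
      rw [hk, hg]
      have : c * (c * C + s * D) - s * (c * D - s * C) = (c ^ 2 + s ^ 2) * C := by ring
      rw [this, h1, one_mul]
    linarith
  have eD : D - s = -(s * (1 - k)) + c * g := by
    have : D = s * k + c * g := by
      rw [hk, hg]
      have : s * (c * C + s * D) + c * (c * D - s * C) = (c ^ 2 + s ^ 2) * D := by ring
      rw [this, h1, one_mul]
    linarith
  have b1 : |c * (1 - k)| ≤ θ / 100 := by
    rw [abs_mul, abs_of_nonneg hc0, abs_of_nonneg h1k0]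
    calc c * (1 - k) ≤ 1 * (1 - k) := mul_le_mul_of_nonneg_right hc1 h1k0
      _ ≤ θ / 100 := by linarith
  have b2 : |s * (1 - k)| ≤ θ / 100 := by
    rw [abs_mul, abs_of_nonneg h1k0]
    calc |s| * (1 - k) ≤ 1 * (1 - k) := mul_le_mul_of_nonneg_right (by linarith) h1k0
      _ ≤ θ / 100 := by linarith
  have b3 : |s * g| ≤ θ := by
    rw [abs_mul]
    calc |s| * |g| ≤ 1 * |g| := mul_le_mul_of_nonneg_right (by linarith) (abs_nonneg g)
      _ ≤ θ := by linarith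
  have b4 : |c * g| ≤ θ := by
    rw [abs_mul, abs_of_nonneg hc0]
    calc c * |g| ≤ 1 * |g| := mul_le_mul_of_nonneg_right hc1 (abs_nonneg g)
      _ ≤ θ := by linarith
  refine ⟨?_, ?_, hgθ⟩
  · rw [eC]
    have := abs_le.1 b1
    have := abs_le.1 b3
    rw [abs_le]
    constructor <;> linarith
  · rw [eD]
    have := abs_le.1 b2
    have := abs_le.1 b4
    rw [abs_le]
    constructor <;> linarith

/-- canonical frames: small misalignment means close frames -/
theorem can_close {S T : Sq} (hS : S.can) (hT : T.can) (hs : |S.s| ≤ 1 / 5) {θ : ℝ}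
    (hθ : θ ≤ 1 / 100) (h : al S T ≤ θ) :
    |T.c - S.c| ≤ 2 * θ ∧ |T.s - S.s| ≤ 2 * θ ∧ |S.c * T.s - S.s * T.c| ≤ θ :=
  GB5_core S.h T.h hS hT hs hθ h

end SqL
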