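import Pool.Agent.Lib.MP_e85462_co.G.A4

open MeasureTheory Set

namespace SqL

private theorem GC1_open (S : Sq) : IsOpen S.op := by
  have h1 : Continuous S.fa := by
    unfold Sq.fa
    fun_prop
  have h2 : Continuous S.fb := by
    unfold Sq.fb
    fun_prop
  exact (isOpen_lt h1.abs continuous_const).inter (isOpen_lt h2.abs continuous_const)

private theorem GC1_dist (S : Sq) {v w : ℝ × ℝ} (hv : v ∈ S.op) (hw : w ∈ S.cl) :
    (v.1 - w.1) ^ 2 + (v.2 - w.2) ^ 2 ≤ 2 := by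
  obtain ⟨a1, a2⟩ := hv
  obtain ⟨b1, b2⟩ := hw
  rw [abs_lt] at a1 a2
  rw [abs_le] at b1 b2
  have e : (S.fa v - S.fa w) ^ 2 + (S.fb v - S.fb w) ^ 2 =
      (S.c ^ 2 + S.s ^ 2) * ((v.1 - w.1) ^ 2 + (v.2 - w.2) ^ 2) := by
    simp only [Sq.fa, Sq.fb]
    ring
  rw [S.h, one_mul] at e
  rw [← e]
  have c1 : (S.fa v - S.fa w) ^ 2 ≤ 1 := by
    rw [sq_le_one_iff_abs_le_one, abs_le]
    constructor <;> linarith
  have c2 : (S.fb v - S.fb w) ^ 2 ≤ 1 := by
    rw [sq_le_one_iff_abs_le_one, abs_le]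
    constructor <;> linarith
  linarith

private theorem GC1_coord {a b c : ℝ} (h1 : (a - b) ^ 2 ≤ 2) (h2 : (b - c) ^ 2 ≤ 4) :
    c - 7 / 2 ≤ a ∧ a ≤ c + 7 / 2 := by
  have e1 : |a - b| ≤ 3 / 2 := abs_le_of_sq_le_sq (by nlinarith) (by norm_num)
  have e2 : |b - c| ≤ 2 := abs_le_of_sq_le_sq (by nlinarith) (by norm_num)
  rw [abs_le] at e1 e2
  constructor <;> linarith

/-- bounded number of squares near a point -/
theorem count {ι : Type} {F : ι → Sq} (hF : Packing F) (z : ℝ × ℝ) (J : Finset ι)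
    (hJ : ∀ i ∈ J, ∃ w ∈ (F i).cl, w ∈ disc z 2) : J.card ≤ 50 := by
  set B : Set (ℝ × ℝ) := Icc (z.1 - 7 / 2) (z.1 + 7 / 2) ×ˢ Icc (z.2 - 7 / 2) (z.2 + 7 / 2)
    with hB
  have hBv : volume B = ENNReal.ofReal 49 := by
    rw [hB, Measure.volume_eq_prod, Measure.prod_prod, Real.volume_Icc, Real.volume_Icc,
      ← ENNReal.ofReal_mul (by linarith)]
    congr 1
    ring
  have hsub : (⋃ i ∈ J, (F i).op) ⊆ B := by
    intro v hv
    rw [mem_iUnion₂] at hv
    obtain ⟨i, hi, hv⟩ := hv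
    obtain ⟨w, hw, hwz⟩ := hJ i hi
    have h1 := GC1_dist (F i) hv hw
    have h2 : (w.1 - z.1) ^ 2 + (w.2 - z.2) ^ 2 ≤ 2 ^ 2 := hwz
    have c1 := GC1_coord (a := v.1) (b := w.1) (c := z.1)
      (by nlinarith [sq_nonneg (v.2 - w.2)]) (by nlinarith [sq_nonneg (w.2 - z.2)])
    have c2 := GC1_coord (a := v.2) (b := w.2) (c := z.2)
      (by nlinarith [sq_nonneg (v.1 - w.1)]) (by nlinarith [sq_nonneg (w.1 - z.1)])
    exact ⟨c1, c2⟩
  have hsum : volume (⋃ i ∈ J, (F i).op) = J.card := by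
    rw [measure_biUnion_finset]
    · rw [Finset.sum_congr rfl fun i _ => vol_op (F i)]
      simp
    · intro i _ j _ hij
      exact hF i j hij
    · intro i _
      exact (GC1_open (F i)).measurableSet
  have h := measure_mono (μ := volume) hsub
  rw [hsum, hBv] at h
  have h49 : (J.card : ℝ) ≤ 49 := by
    have : (J.card : ENNReal) = ENNReal.ofReal (J.card : ℝ) := (ENNReal.ofReal_natCast _).symm
    rw [this] at h
    exact (ENNReal.ofReal_le_ofReal_iff (by norm_num)).1 h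
  have : J.card ≤ 49 := by exact_mod_cast h49
  omega

end SqL
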