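import Pool.Agent.Lib.MP_e85462_co.G.Defs

open MeasureTheory Set

namespace SqL

theorem GC2_convex (a b r : ℝ) : Convex ℝ {y : ℝ | |a * y + b| ≤ r} := by
  intro y1 h1 y2 h2 s t hs ht hst
  simp only [mem_setOf_eq, smul_eq_mul] at h1 h2 ⊢
  rw [abs_le] at h1 h2 ⊢
  have e : a * (s * y1 + t * y2) + b = s * (a * y1 + b) + t * (a * y2 + b) := by
    linear_combination b * (1 - (s + t)) + 2 * b * (s + t - 1) - b * (s + t - 1) - b * hst
  have e1 : r = s * r + t * r := by rw [← add_mul, hst, one_mul]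
  rw [e]
  constructor
  · nlinarith [mul_le_mul_of_nonneg_left h1.1 hs, mul_le_mul_of_nonneg_left h2.1 ht]
  · nlinarith [mul_le_mul_of_nonneg_left h1.2 hs, mul_le_mul_of_nonneg_left h2.2 ht]

theorem GC2_eq (T : Sq) (x : ℝ) : vch T x =
    {y : ℝ | |1 * y + 0| ≤ 1 / 2} ∩ ({y : ℝ | |T.s * y + ((x - T.x) * T.c - T.y * T.s)| ≤ 1 / 2} ∩
      {y : ℝ | |T.c * y + (- T.y * T.c - (x - T.x) * T.s)| ≤ 1 / 2}) := by
  ext y
  simp only [vch, Sq.cl, Sq.fa, Sq.fb, mem_setOf_eq, mem_inter_iff]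
  have e1 : 1 * y + 0 = y := by ring
  have e2 : T.s * y + ((x - T.x) * T.c - T.y * T.s) = (x - T.x) * T.c + (y - T.y) * T.s := by ring
  have e3 : T.c * y + (- T.y * T.c - (x - T.x) * T.s) = (y - T.y) * T.c - (x - T.x) * T.s := by
    ring
  rw [e1, e2, e3]

theorem GC2_closed (a b r : ℝ) : IsClosed {y : ℝ | |a * y + b| ≤ r} :=
  isClosed_le (by fun_prop) continuous_const

theorem vch_vol (T : Sq) (x : ℝ) (hne : (vch T x).Nonempty) :
    ∃ y1 ∈ vch T x, ∃ y2 ∈ vch T x, y1 ≤ y2 ∧ volume (vch T x) = ENNReal.ofReal (y2 - y1) := by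
  have hconv : Convex ℝ (vch T x) := by
    rw [GC2_eq]
    exact (GC2_convex _ _ _).inter ((GC2_convex _ _ _).inter (GC2_convex _ _ _))
  have hclosed : IsClosed (vch T x) := by
    rw [GC2_eq]
    exact (GC2_closed _ _ _).inter ((GC2_closed _ _ _).inter (GC2_closed _ _ _))
  have hcomp : IsCompact (vch T x) := by
    refine (isCompact_Icc (a := (-(1 / 2) : ℝ)) (b := 1 / 2)).of_isClosed_subset hclosed ?_
    intro y hy
    exact abs_le.1 hy.1
  obtain ⟨y1, h1⟩ := hcomp.exists_isLeast hne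
  obtain ⟨y2, h2⟩ := hcomp.exists_isGreatest hne
  refine ⟨y1, h1.1, y2, h2.1, h1.2 h2.1, ?_⟩
  have : vch T x = Icc y1 y2 := by
    apply Subset.antisymm
    · intro y hy
      exact ⟨h1.2 hy, h2.2 hy⟩
    · exact hconv.ordConnected.out h1.1 h2.1
  rw [this, Real.volume_Icc]

end SqL
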