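import Pool.Agent.Lib.MP_e85462_co.G.Defs

open MeasureTheory Set

namespace SqL

private theorem GC3_closed (S : Sq) : IsClosed S.cl := by
  have h1 : Continuous fun z : ℝ × ℝ => |S.fa z| := by
    unfold Sq.fa; fun_prop
  have h2 : Continuous fun z : ℝ × ℝ => |S.fb z| := by
    unfold Sq.fb; fun_prop
  exact (isClosed_le h1 continuous_const).inter (isClosed_le h2 continuous_const)

/-- a vertical line at small depth which is almost covered -/
theorem depth {ι : Type} [Finite ι] {F : ι → Sq} {ω : ℝ} (h0 : 0 < ω) (h1 : ω ≤ 1 / 1000)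
    (hW : Wle F std 5 ω) :
    ∃ x : ℝ, 0 < x ∧ x ≤ 100 * ω ∧
      volume ({y : ℝ | |y| ≤ 1 / 2} \ ⋃ i, vch (F i) (1 / 2 + x)) ≤ ENNReal.ofReal (1 / 100) := by
  set A : Set (ℝ × ℝ) :=
    {z : ℝ × ℝ | z.1 ∈ Ioc (1 / 2 : ℝ) (1 / 2 + 100 * ω) ∧ |z.2| ≤ 1 / 2} \ ⋃ i, (F i).cl with hA
  have hAm : MeasurableSet A := by
    apply MeasurableSet.diff
    · apply MeasurableSet.inter
      · exact measurable_fst measurableSet_Ioc
      · have hc : Continuous fun z : ℝ × ℝ => |z.2| := by fun_prop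
        exact (isClosed_le hc continuous_const).measurableSet
    · exact MeasurableSet.iUnion fun i => (GC3_closed (F i)).measurableSet
  have hAsub : A ⊆ unc F (disc std.m 5) := by
    rintro z ⟨⟨⟨hz1, hz2⟩, hz3⟩, hz4⟩
    refine ⟨?_, hz4⟩
    show (z.1 - 0) ^ 2 + (z.2 - 0) ^ 2 ≤ 5 ^ 2
    have h3 := abs_le.1 hz3
    nlinarith [h3.1, h3.2]
  have hvol : volume A ≤ ENNReal.ofReal ω := (measure_mono hAsub).trans hW
  set s : Set ℝ := Ioc (1 / 2 : ℝ) (1 / 2 + 100 * ω) with hs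
  have hμs : volume s = ENNReal.ofReal (100 * ω) := by
    rw [hs, Real.volume_Ioc]; congr 1; ring
  have hfm : Measurable fun X : ℝ => volume (Prod.mk X ⁻¹' A) := measurable_measure_prodMk_left hAm
  obtain ⟨X, hX, hle⟩ := exists_le_setLAverage (μ := volume) (s := s)
    (f := fun X : ℝ => volume (Prod.mk X ⁻¹' A))
    (by rw [hμs]; simp only [ne_eq, ENNReal.ofReal_eq_zero, not_le]; linarith)
    (by rw [hμs]; exact ENNReal.ofReal_ne_top)
    hfm.aemeasurable
  rw [setLAverage_eq] at hle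
  have hint : ∫⁻ X in s, volume (Prod.mk X ⁻¹' A) ≤ ENNReal.ofReal ω := by
    refine (setLIntegral_le_lintegral _ _).trans ?_
    rw [← Measure.prod_apply hAm, ← Measure.volume_eq_prod]
    exact hvol
  have hle2 : volume (Prod.mk X ⁻¹' A) ≤ ENNReal.ofReal (1 / 100) := by
    refine hle.trans ?_
    rw [hμs]
    refine (ENNReal.div_le_div_right hint _).trans ?_
    rw [← ENNReal.ofReal_div_of_pos (by linarith)]
    apply ENNReal.ofReal_le_ofReal
    rw [div_le_iff₀ (by linarith)]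
    linarith
  refine ⟨X - 1 / 2, ?_, ?_, ?_⟩
  · have := hX.1; linarith
  · have := hX.2; linarith
  · refine le_trans (measure_mono ?_) hle2
    rintro y ⟨hy1, hy2⟩
    have hX' : 1 / 2 + (X - 1 / 2) = X := by ring
    rw [hX'] at hy2
    refine ⟨⟨hX, hy1⟩, ?_⟩
    intro hmem
    apply hy2
    rw [mem_iUnion] at hmem ⊢
    obtain ⟨i, hi⟩ := hmem
    exact ⟨i, hy1, hi⟩

end SqL
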