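import Pool.Agent.Lib.MP_e85462_co.G.B1
import Pool.Agent.Lib.MP_e85462_co.G.B2
import Pool.Agent.Lib.MP_e85462_co.G.A1

open MeasureTheory Set

namespace SqL

private theorem GC4_fa (z : ℝ × ℝ) : std.fa z = z.1 := by
  unfold Sq.fa std
  dsimp only
  ring

private theorem GC4_fb (z : ℝ × ℝ) : std.fb z = z.2 := by
  unfold Sq.fb std
  dsimp only
  ring

/-- a square with a long chord near the right side of the standard square -/
theorem long_chord {T : Sq} (hT : Disjoint std.op T.op) {ω x y1 y2 : ℝ} (h0 : 0 < ω)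
    (h1 : ω ≤ 1 / 10 ^ 12) (hx : 0 ≤ x) (hx' : x ≤ 100 * ω) (hy1 : y1 ∈ vch T (1 / 2 + x))
    (hy2 : y2 ∈ vch T (1 / 2 + x)) (hl : 1 / 5000 ≤ y2 - y1) :
    al std T ≤ 10 ^ 6 * ω ∧ |T.x - 1| ≤ 2 * 10 ^ 6 * ω ∧ y2 - y1 ≤ 1 - |T.y| + 10 ^ 6 * ω := by
  obtain ⟨b1, m1⟩ := hy1
  obtain ⟨b2, m2⟩ := hy2
  have hal := al_nonneg std T
  have hch := chord hT m1 m2 (x := x) hx (by norm_num at h1 ⊢; linarith) (by rw [GC4_fa])
    (by rw [GC4_fa]) (by rw [GC4_fb]; exact b1) (by rw [GC4_fb]; exact b2)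
  rw [GC4_fb, GC4_fb] at hch
  dsimp only at hch
  have e1 := ext (S := std) m1
  have e2 := ext (S := std) m2
  have hp : pp std T = T.x := GC4_fa _
  have hq : qq std T = T.y := GC4_fb _
  rw [GC4_fa, GC4_fb, hp, hq] at e1 e2
  dsimp only at e1 e2
  have hs := sep hT
  rw [hp, hq] at hs
  obtain ⟨⟨f1, f2⟩, f3, f4⟩ := And.intro (abs_le.1 e1.1) (abs_le.1 e1.2)
  obtain ⟨g3, g4⟩ := abs_le.1 e2.2
  obtain ⟨b11, b12⟩ := abs_le.1 b1
  obtain ⟨b21, b22⟩ := abs_le.1 b2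
  set α := al std T with hα
  have hα1 : α ≤ 750000 * ω := by
    have : 1 / 5000 * α ≤ (y2 - y1) * α := mul_le_mul_of_nonneg_right hl hal
    linarith
  have hα2 : α ≤ 1 / 10 ^ 6 := by
    norm_num at h1 ⊢
    linarith
  have hy : |T.y| < 1 - α := by
    rw [abs_lt]
    norm_num at hα2
    constructor <;> linarith
  have hx1 : 1 - α ≤ |T.x| := by
    rcases le_max_iff.1 hs with h | h
    · exact h
    · linarith
  have hx2 : 1 - α ≤ T.x := by
    rcases le_total 0 T.x with h | h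
    · rwa [abs_of_nonneg h] at hx1
    · rw [abs_of_nonpos h] at hx1
      norm_num at hα2
      linarith
  refine ⟨by linarith, ?_, ?_⟩
  · rw [abs_le]
    constructor <;> linarith
  · rcases le_total 0 T.y with h | h
    · rw [abs_of_nonneg h]
      linarith
    · rw [abs_of_nonpos h]
      linarith

end SqL
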