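import Pool.Agent.Lib.MP_e85462_co.G.B4
import Pool.Agent.Lib.MP_e85462_co.G.C1
import Pool.Agent.Lib.MP_e85462_co.G.C2
import Pool.Agent.Lib.MP_e85462_co.G.C3
import Pool.Agent.Lib.MP_e85462_co.G.C4

open MeasureTheory Set

namespace SqL

theorem GC5_pp (T : Sq) : pp std T = T.x := by
  simp [pp, std, Sq.fa, Sq.m]

theorem GC5_qq (T : Sq) : qq std T = T.y := by
  simp [qq, std, Sq.fb, Sq.m]

theorem GC5_std (x y : ℝ) (hx : 0 < x) : y ∉ vch std (1 / 2 + x) := by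
  rintro ⟨_, h, _⟩
  have : std.fa (1 / 2 + x, y) = 1 / 2 + x := by simp [std, Sq.fa]
  rw [this, abs_le] at h
  linarith [h.2]

theorem GC5_three {a b c M δ : ℝ} (ha : |a| ≤ M) (hb : |b| ≤ M) (hc : |c| ≤ M) (hM : M < δ)
    (hδ : 0 < δ) (hab : δ ≤ |a - b|) (hac : δ ≤ |a - c|) (hbc : δ ≤ |b - c|) : False := by
  rw [abs_le] at ha hb hc
  rw [le_abs'] at hab hac hbc
  rcases hab with h1 | h1 <;> rcases hac with h2 | h2 <;> rcases hbc with h3 | h3 <;> linarith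

theorem GC5_pair {T U : Sq} {ω : ℝ} (h : Disjoint T.op U.op) (h0 : 0 < ω) (h1 : ω ≤ 1 / 10 ^ 12)
    (hT : al std T ≤ 10 ^ 6 * ω) (hU : al std U ≤ 10 ^ 6 * ω) (hTx : |T.x - 1| ≤ 2 * 10 ^ 6 * ω)
    (hUx : |U.x - 1| ≤ 2 * 10 ^ 6 * ω) (hTy : |T.y| ≤ 1) (hUy : |U.y| ≤ 1) :
    99999 / 100000 ≤ |T.y - U.y| := by
  have hx : |T.x - U.x| ≤ 4 * 10 ^ 6 * ω := by
    rw [abs_le] at *
    constructor <;> linarith [hTx.1, hTx.2, hUx.1, hUx.2]
  have hy : |T.y - U.y| ≤ 2 := by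
    rw [abs_le] at *
    constructor <;> linarith [hTy.1, hTy.2, hUy.1, hUy.2]
  have hw : 4 * 10 ^ 6 * ω ≤ 4 / 10 ^ 6 := by
    have : 4 * 10 ^ 6 * ω ≤ 4 * 10 ^ 6 * (1 / 10 ^ 12) := by gcongr
    refine this.trans ?_
    norm_num
  have h3 := sep' h hT hU (by norm_num at hw ⊢; linarith) (by
    rw [GC5_pp, GC5_pp, GC5_qq, GC5_qq]
    norm_num at hw ⊢
    linarith)
  rw [GC5_pp, GC5_pp, GC5_qq, GC5_qq, le_max_iff] at h3
  rcases h3 with h3 | h3
  · norm_num at hw h3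
    linarith
  · norm_num at hw h3 ⊢
    linarith

theorem strong0 {ι : Type} [Fintype ι] {F : ι → Sq} (hF : Packing F) {i : ι} (hi : F i = std)
    {ω : ℝ} (h0 : 0 < ω) (h1 : ω ≤ 1 / 10 ^ 12) (hW : Wle F std 5 ω) :
    ∃ j, j ≠ i ∧ al std (F j) ≤ 10 ^ 6 * ω ∧ |(F j).x - 1| ≤ 2 * 10 ^ 6 * ω ∧
      |(F j).y| ≤ 13 / 25 := by
  classical
  have hw6 : 10 ^ 6 * ω ≤ 1 / 10 ^ 6 := by
    have : 10 ^ 6 * ω ≤ 10 ^ 6 * (1 / 10 ^ 12) := by gcongr
    refine this.trans ?_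
    norm_num
  obtain ⟨x, hx0, hx1, hvol⟩ := depth h0 (h1.trans (by norm_num)) hW
  have hxs : x ≤ 1 / 100 := by
    norm_num at hw6
    linarith
  set J : Finset ι := Finset.univ.filter (fun j => (vch (F j) (1 / 2 + x)).Nonempty) with hJ
  have hJcard : J.card ≤ 50 := by
    refine count hF (0, 0) J ?_
    intro j hj
    obtain ⟨y, hy1, hy2⟩ := (Finset.mem_filter.1 hj).2
    refine ⟨(1 / 2 + x, y), hy2, ?_⟩
    change (1 / 2 + x - 0) ^ 2 + (y - 0) ^ 2 ≤ 2 ^ 2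
    rw [abs_le] at hy1
    nlinarith [hy1.1, hy1.2]
  have hch : ∀ j, ∃ l : ℝ, 0 ≤ l ∧ volume (vch (F j) (1 / 2 + x)) = ENNReal.ofReal l ∧
      (j ∈ J → ∃ y1 ∈ vch (F j) (1 / 2 + x), ∃ y2 ∈ vch (F j) (1 / 2 + x), y2 - y1 = l) := by
    intro j
    by_cases hj : (vch (F j) (1 / 2 + x)).Nonempty
    · obtain ⟨y1, hy1, y2, hy2, h3, h4⟩ := vch_vol (F j) (1 / 2 + x) hj
      exact ⟨y2 - y1, by linarith, h4, fun _ => ⟨y1, hy1, y2, hy2, rfl⟩⟩
    · refine ⟨0, le_rfl, ?_, ?_⟩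
      · rw [not_nonempty_iff_eq_empty] at hj
        rw [hj]
        simp
      · intro h
        exact absurd (Finset.mem_filter.1 h).2 hj
  choose l hl0 hlv hlJ using hch
  have hsum : 99 / 100 ≤ ∑ j ∈ J, l j := by
    have h3 : volume {y : ℝ | |y| ≤ 1 / 2} ≤ ENNReal.ofReal (1 / 100) + ∑ j ∈ J, ENNReal.ofReal (l j) := by
      have h4 : {y : ℝ | |y| ≤ 1 / 2} ⊆ ({y : ℝ | |y| ≤ 1 / 2} \ ⋃ i, vch (F i) (1 / 2 + x)) ∪
          ⋃ j ∈ J, vch (F j) (1 / 2 + x) := by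
        intro y hy
        by_cases h5 : y ∈ ⋃ i, vch (F i) (1 / 2 + x)
        · right
          rw [mem_iUnion] at h5
          obtain ⟨j, hj⟩ := h5
          rw [mem_iUnion₂]
          exact ⟨j, Finset.mem_filter.2 ⟨Finset.mem_univ j, ⟨y, hj⟩⟩, hj⟩
        · left
          exact ⟨hy, h5⟩
      refine (measure_mono h4).trans ((measure_union_le _ _).trans ?_)
      refine add_le_add hvol ((measure_biUnion_finset_le J _).trans ?_)
      exact Finset.sum_le_sum fun j _ => (hlv j).le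
    have h4 : {y : ℝ | |y| ≤ 1 / 2} = Icc (-(1 / 2)) (1 / 2) := by
      ext y
      rw [mem_setOf_eq, abs_le, mem_Icc]
    rw [h4, Real.volume_Icc, ← ENNReal.ofReal_sum_of_nonneg (fun j _ => hl0 j),
      ← ENNReal.ofReal_add (by norm_num) (Finset.sum_nonneg fun j _ => hl0 j),
      ENNReal.ofReal_le_ofReal_iff (by
        have := Finset.sum_nonneg (s := J) fun j _ => hl0 j
        linarith)] at h3
    linarith
  set L : Finset ι := J.filter (fun j => 1 / 5000 ≤ l j) with hL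
  have hsumL : 98 / 100 ≤ ∑ j ∈ L, l j := by
    have h3 : ∑ j ∈ J, l j = ∑ j ∈ L, l j + ∑ j ∈ J.filter (fun j => ¬ 1 / 5000 ≤ l j), l j :=
      (Finset.sum_filter_add_sum_filter_not J _ _).symm
    have h4 : ∑ j ∈ J.filter (fun j => ¬ 1 / 5000 ≤ l j), l j ≤ 1 / 100 := by
      calc ∑ j ∈ J.filter (fun j => ¬ 1 / 5000 ≤ l j), l j
          ≤ ∑ _j ∈ J.filter (fun j => ¬ 1 / 5000 ≤ l j), (1 / 5000 : ℝ) :=
            Finset.sum_le_sum fun j hj => (not_le.1 (Finset.mem_filter.1 hj).2).le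
        _ = ((J.filter (fun j => ¬ 1 / 5000 ≤ l j)).card : ℝ) * (1 / 5000) := by
            rw [Finset.sum_const, nsmul_eq_mul]
        _ ≤ 50 * (1 / 5000) := by
            gcongr
            exact_mod_cast (Finset.card_filter_le _ _).trans hJcard
        _ = 1 / 100 := by norm_num
    linarith
  have hprop : ∀ j ∈ L, j ≠ i ∧ al std (F j) ≤ 10 ^ 6 * ω ∧ |(F j).x - 1| ≤ 2 * 10 ^ 6 * ω ∧
      l j ≤ 1 - |(F j).y| + 10 ^ 6 * ω := by
    intro j hj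
    obtain ⟨hjJ, hjl⟩ := Finset.mem_filter.1 hj
    have hji : j ≠ i := by
      rintro rfl
      obtain ⟨y, hy⟩ := (Finset.mem_filter.1 hjJ).2
      rw [hi] at hy
      exact GC5_std x y hx0 hy
    obtain ⟨y1, hy1, y2, hy2, hll⟩ := hlJ j hjJ
    have hd : Disjoint std.op (F j).op := by
      rw [← hi]
      exact hF i j hji.symm
    have h3 := long_chord hd h0 h1 hx0.le hx1 hy1 hy2 (by rw [hll]; exact hjl)
    rw [hll] at h3
    exact ⟨hji, h3⟩
  have hy1 : ∀ j ∈ L, |(F j).y| ≤ 1 - 1 / 5000 + 1 / 10 ^ 6 := by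
    intro j hj
    have h3 := (hprop j hj).2.2.2
    have h4 := (Finset.mem_filter.1 hj).2
    linarith
  have hex : ∃ j ∈ L, 49 / 100 ≤ l j := by
    by_contra hcon
    push Not at hcon
    have hcard : ¬ 2 < L.card := by
      intro h2
      rw [Finset.two_lt_card] at h2
      obtain ⟨a, ha, b, hb, c, hc, hab, hac, hbc⟩ := h2
      have hsep : ∀ a ∈ L, ∀ b ∈ L, a ≠ b → 99999 / 100000 ≤ |(F a).y - (F b).y| := by
        intro a ha b hb hab
        refine GC5_pair (hF a b hab) h0 h1 (hprop a ha).2.1 (hprop b hb).2.1 (hprop a ha).2.2.1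
          (hprop b hb).2.2.1 ((hy1 a ha).trans (by norm_num)) ((hy1 b hb).trans (by norm_num))
      exact GC5_three (hy1 a ha) (hy1 b hb) (hy1 c hc) (by norm_num) (by norm_num)
        (hsep a ha b hb hab) (hsep a ha c hc hac) (hsep b hb c hc hbc)
    rcases L.eq_empty_or_nonempty with hLe | hLn
    · rw [hLe, Finset.sum_empty] at hsumL
      norm_num at hsumL
    · have h3 : ∑ j ∈ L, l j < ∑ _j ∈ L, (49 / 100 : ℝ) :=
        Finset.sum_lt_sum_of_nonempty hLn hcon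
      rw [Finset.sum_const, nsmul_eq_mul] at h3
      have h4 : (L.card : ℝ) ≤ 2 := by exact_mod_cast not_lt.1 hcard
      linarith
  obtain ⟨j, hj, hjl⟩ := hex
  obtain ⟨h3, h4, h5, h6⟩ := hprop j hj
  refine ⟨j, h3, h4, h5, ?_⟩
  norm_num at hw6
  linarith

end SqL
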