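import Pool.Agent.Lib.MP_e85462_co.G.A5
import Pool.Agent.Lib.MP_e85462_co.G.C5

open MeasureTheory Set

namespace SqL

theorem strong1 {ι : Type} [Fintype ι] {F : ι → Sq} (hF : Packing F) (i : ι)
    {ω : ℝ} (h0 : 0 < ω) (h1 : ω ≤ 1 / 10 ^ 12) (hW : Wle F (F i) 5 ω) :
    ∃ j, j ≠ i ∧ al (F i) (F j) ≤ 10 ^ 6 * ω ∧ |pp (F i) (F j) - 1| ≤ 2 * 10 ^ 6 * ω ∧
      |qq (F i) (F j)| ≤ 13 / 25 := by
  have hW' : Wle (fun j => (F j).rel (F i)) std 5 ω := by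
    have h := rel_Wle (S := F i) hW
    rw [rel_self] at h
    exact h
  obtain ⟨j, hj, ha, hx, hy⟩ := strong0 (rel_packing hF (F i)) (i := i) (rel_self (F i)) h0 h1 hW'
  refine ⟨j, hj, ?_, hx, hy⟩
  have ha' : al std ((F j).rel (F i)) ≤ 10 ^ 6 * ω := ha
  rw [rel_al'] at ha'
  exact ha'

theorem GC6_pack {ι : Type} : ∀ (k : ℕ) {F : ι → Sq}, Packing F →
    Packing (fun j => Nat.iterate Sq.rot k (F j))
  | 0, _, hF => hF
  | k + 1, _, hF => GC6_pack k (rot_packing hF)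

theorem GC6_Wle {ι : Type} {R ω : ℝ} : ∀ (k : ℕ) {F : ι → Sq} {T : Sq}, Wle F T R ω →
    Wle (fun j => Nat.iterate Sq.rot k (F j)) (Nat.iterate Sq.rot k T) R ω
  | 0, _, _, h => h
  | k + 1, _, _, h => GC6_Wle k (rot_Wle h)

theorem GC6_al : ∀ (k : ℕ) (S T : Sq),
    al (Nat.iterate Sq.rot k S) (Nat.iterate Sq.rot k T) = al S T
  | 0, _, _ => rfl
  | k + 1, S, T => by
    have h := GC6_al k S.rot T.rot
    rw [al_rot, al_rot'] at h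
    exact h

theorem GC6_m : ∀ (k : ℕ) (T : Sq), (Nat.iterate Sq.rot k T).m = T.m
  | 0, _ => rfl
  | k + 1, T => GC6_m k T.rot

/-- strong neighbours in the four directions; `k` quarter turns -/
theorem strong2 {ι : Type} [Fintype ι] {F : ι → Sq} (hF : Packing F) (i : ι) (k : ℕ)
    {ω : ℝ} (h0 : 0 < ω) (h1 : ω ≤ 1 / 10 ^ 12) (hW : Wle F (F i) 5 ω) :
    ∃ j, j ≠ i ∧ al (F i) (F j) ≤ 10 ^ 6 * ω ∧
      |pp (Nat.iterate Sq.rot k (F i)) (F j) - 1| ≤ 2 * 10 ^ 6 * ω ∧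
      |qq (Nat.iterate Sq.rot k (F i)) (F j)| ≤ 13 / 25 := by
  obtain ⟨j, hj, ha, hx, hy⟩ := strong1 (GC6_pack k hF) i h0 h1 (GC6_Wle k hW)
  refine ⟨j, hj, ?_, ?_, ?_⟩
  · rw [← GC6_al k]
    exact ha
  · rw [pp] at hx ⊢
    rw [GC6_m] at hx
    exact hx
  · rw [qq] at hy ⊢
    rw [GC6_m] at hy
    exact hy

end SqL
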