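import Pool.Agent.Lib.MP_e85462_co.G.A2
import Pool.Agent.Lib.MP_e85462_co.G.B1
import Pool.Agent.Lib.MP_e85462_co.G.B3
import Pool.Agent.Lib.MP_e85462_co.G.C6

open MeasureTheory Set

namespace SqL

theorem GD2_dd (S U V : Sq) : (pp S V - pp S U) ^ 2 + (qq S V - qq S U) ^ 2 = dd U V := by
  have h := S.h
  unfold pp qq dd Sq.fa Sq.fb Sq.m
  simp only
  have : ((V.x - S.x) * S.c + (V.y - S.y) * S.s - ((U.x - S.x) * S.c + (U.y - S.y) * S.s)) ^ 2 +
      ((V.y - S.y) * S.c - (V.x - S.x) * S.s - ((U.y - S.y) * S.c - (U.x - S.x) * S.s)) ^ 2 =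
      ((V.x - U.x) ^ 2 + (V.y - U.y) ^ 2) * (S.c ^ 2 + S.s ^ 2) := by ring
  rw [this, h, mul_one]

theorem GD2_iter (k : ℕ) (S : Sq) : (Nat.iterate Sq.rot k S).x = S.x ∧ (Nat.iterate Sq.rot k S).y = S.y := by
  induction k generalizing S with
  | zero => exact ⟨rfl, rfl⟩
  | succ k ih =>
    have := ih S.rot
    exact this

theorem GD2_al (k : ℕ) (S T : Sq) : al (Nat.iterate Sq.rot k S) T = al S T := by
  induction k generalizing S with
  | zero => rfl
  | succ k ih =>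
    have h1 := ih S.rot
    rw [al_rot] at h1
    exact h1

theorem GD2_own (k : ℕ) (S : Sq) : pp (Nat.iterate Sq.rot k S) S = 0 ∧ qq (Nat.iterate Sq.rot k S) S = 0 := by
  obtain ⟨h1, h2⟩ := GD2_iter k S
  unfold pp qq Sq.fa Sq.fb Sq.m
  simp only
  rw [h1, h2]
  constructor <;> ring

theorem GD2_pq (k : ℕ) (S T : Sq) :
    pp (Nat.iterate Sq.rot k S) T ^ 2 + qq (Nat.iterate Sq.rot k S) T ^ 2 = dd S T := by
  have h := GD2_dd (Nat.iterate Sq.rot k S) S T
  rw [(GD2_own k S).1, (GD2_own k S).2, sub_zero, sub_zero] at h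
  exact h

theorem GD2_wlog (S T : Sq) : ∃ k : ℕ,
    pp (Nat.iterate Sq.rot k S) T = max |pp S T| |qq S T| ∧
    |qq (Nat.iterate Sq.rot k S) T| ≤ pp (Nat.iterate Sq.rot k S) T := by
  rcases le_total |qq S T| |pp S T| with h | h
  · rw [max_eq_left h]
    rcases le_total 0 (pp S T) with h2 | h2
    · refine ⟨0, (abs_of_nonneg h2).symm, ?_⟩
      show |qq S T| ≤ pp S T
      rw [abs_of_nonneg h2] at h; exact h
    · refine ⟨2, ?_, ?_⟩
      · show pp S.rot.rot T = _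
        rw [pp_rot, qq_rot, abs_of_nonpos h2]
      · show |qq S.rot.rot T| ≤ pp S.rot.rot T
        rw [pp_rot, qq_rot, qq_rot, pp_rot, abs_neg]
        rw [abs_of_nonpos h2] at h; exact h
  · rw [max_eq_right h]
    rcases le_total 0 (qq S T) with h2 | h2
    · refine ⟨1, ?_, ?_⟩
      · show pp S.rot T = _
        rw [pp_rot, abs_of_nonneg h2]
      · show |qq S.rot T| ≤ pp S.rot T
        rw [pp_rot, qq_rot, abs_neg]
        rw [abs_of_nonneg h2] at h; exact h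
    · refine ⟨3, ?_, ?_⟩
      · show pp S.rot.rot.rot T = _
        rw [pp_rot, qq_rot, pp_rot, abs_of_nonpos h2]
      · show |qq S.rot.rot.rot T| ≤ pp S.rot.rot.rot T
        rw [show qq S.rot.rot.rot T = pp S T by rw [qq_rot, pp_rot, qq_rot, neg_neg],
          show pp S.rot.rot.rot T = -qq S T by rw [pp_rot, qq_rot, pp_rot]]
        rw [abs_of_nonpos h2] at h; exact h

/-- the last two steps of the walk -/
theorem walk2 {ι : Type} [Fintype ι] {F : ι → Sq} (hF : Packing F) (i j : ι)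
    {ω : ℝ} (h0 : 0 < ω) (h1 : ω ≤ 1 / 10 ^ 12) (hW : Wle F (F j) 10 ω)
    (hp : max |pp (F j) (F i)| |qq (F j) (F i)| < 1) :
    al (F j) (F i) ≤ 2 * 10 ^ 6 * ω := by
  have hself : Wle F (F j) 5 ω := Wle_mono hW (by norm_num) (by norm_num) (by
    unfold dd; norm_num)
  have hω : 10 ^ 6 * ω ≤ 1 / 10 ^ 6 := by
    calc 10 ^ 6 * ω ≤ 10 ^ 6 * (1 / 10 ^ 12) := by gcongr
      _ = 1 / 10 ^ 6 := by norm_num
  have hω0 : 0 < 10 ^ 6 * ω := by positivity
  have hsame : ∀ a b, dd (F a) (F b) < 1 → a = b := by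
    intro a b hab
    by_contra hne
    exact absurd (dist_one (hF a b hne)) (not_le.2 hab)
  by_cases hdd : dd (F j) (F i) < 1
  · rw [hsame j i hdd, al_self]; linarith
  push Not at hdd
  obtain ⟨k, hk1, hk2⟩ := GD2_wlog (F j) (F i)
  set S' := Nat.iterate Sq.rot k (F j) with hS'
  set p := pp S' (F i) with hp'
  set q := qq S' (F i) with hq'
  have hp1 : p < 1 := by rw [hk1]; exact hp
  have hpq : p ^ 2 + q ^ 2 = dd (F j) (F i) := GD2_pq k (F j) (F i)
  have hq2 : q ^ 2 ≤ p ^ 2 := by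
    rw [← sq_abs q]
    exact pow_le_pow_left₀ (abs_nonneg _) hk2 2
  have hp0 : 0 ≤ p := (abs_nonneg _).trans hk2
  have hp7 : 7 / 10 < p := by nlinarith
  obtain ⟨j', hj'1, hj'2, hj'3, hj'4⟩ := strong2 hF j k h0 h1 hself
  rw [← hS'] at hj'3 hj'4
  set p' := pp S' (F j') with hp''
  set q' := qq S' (F j') with hq''
  obtain ⟨a1, a2⟩ := abs_le.1 hj'3
  obtain ⟨b1, b2⟩ := abs_le.1 hj'4
  obtain ⟨c1, c2⟩ := abs_le.1 hk2
  have hdd2 := GD2_dd S' (F j') (F i)
  rw [← hp', ← hq', ← hp'', ← hq''] at hdd2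
  by_cases hlt : dd (F j') (F i) < 1
  · rw [← hsame j' i hlt]
    linarith
  push Not at hlt
  have e1 : -(3001 / 10000) ≤ p - p' := by linarith
  have e2 : p - p' ≤ 1 / 10000 := by linarith
  have hP2 : (p - p') ^ 2 ≤ (3001 / 10000) ^ 2 := by
    apply sq_le_sq'
    · linarith
    · linarith
  have hQ2 : (95 / 100) ^ 2 ≤ (q - q') ^ 2 := by nlinarith
  have hQ : 95 / 100 ≤ |q - q'| := by
    rw [← abs_of_pos (show (0 : ℝ) < 95 / 100 by norm_num)]
    exact sq_le_sq.1 hQ2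
  have hQ' : |q - q'| ≤ 152 / 100 := by
    rw [abs_le]; constructor <;> linarith
  have hP : |p - p'| ≤ 3001 / 10000 := by
    rw [abs_le]; constructor <;> linarith
  -- change of frame
  obtain ⟨k', hk'1, hk'2⟩ := frame_change S' (F j') (F j') (F i)
  have halS' : al S' (F j') ≤ 10 ^ 6 * ω := by rw [hS', GD2_al]; exact hj'2
  rw [(GD2_own k' (F j')).1, ← hp', ← hp'', ← hq', ← hq'', sub_zero] at hk'1
  rw [(GD2_own k' (F j')).2, ← hp', ← hp'', ← hq', ← hq'', sub_zero] at hk'2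
  have herr : 2 * al S' (F j') * (|p - p'| + |q - q'|) ≤ 4 / 10 ^ 6 := by
    have h3 : |p - p'| + |q - q'| ≤ 2 := by linarith
    have h4 : 0 ≤ |p - p'| + |q - q'| := by positivity
    have h5 : al S' (F j') ≤ 1 / 10 ^ 6 := halS'.trans hω
    have h6 := al_nonneg S' (F j')
    calc 2 * al S' (F j') * (|p - p'| + |q - q'|) ≤ 2 * (1 / 10 ^ 6) * 2 := by gcongr
      _ = 4 / 10 ^ 6 := by norm_num
  obtain ⟨f1, f2⟩ := abs_le.1 (hk'1.trans herr)
  obtain ⟨f3, f4⟩ := abs_le.1 (hk'2.trans herr)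
  set P := pp (Nat.iterate Sq.rot k' (F j')) (F i) with hPd
  set Q := qq (Nat.iterate Sq.rot k' (F j')) (F i) with hQd
  have hPab : |P| ≤ 3002 / 10000 := by
    rw [abs_le]; constructor <;> linarith
  have hQab1 : 94 / 100 ≤ |Q| := by
    have h3 : |q - q'| ≤ |Q| + |Q - (q - q')| := by
      have h4 : q - q' = Q - (Q - (q - q')) := by ring
      calc |q - q'| = |Q - (Q - (q - q'))| := by rw [← h4]
        _ ≤ |Q| + |Q - (q - q')| := abs_sub _ _
    have h5 := hk'2.trans herr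
    linarith
  have hQab2 : |Q| ≤ 1521 / 1000 := by
    have h3 : |Q| ≤ |q - q'| + |Q - (q - q')| := by
      have h4 : Q = (q - q') + (Q - (q - q')) := by ring
      calc |Q| = |(q - q') + (Q - (q - q'))| := by rw [← h4]
        _ ≤ |q - q'| + |Q - (q - q')| := abs_add_le _ _
    have h5 := hk'2.trans herr
    linarith
  obtain ⟨k2, hk21, hk22⟩ := GD2_wlog (Nat.iterate Sq.rot k' (F j')) (F i)
  rw [← hPd, ← hQd, max_eq_right (by linarith : |P| ≤ |Q|)] at hk21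
  have hiter : Nat.iterate Sq.rot k2 (Nat.iterate Sq.rot k' (F j')) = Nat.iterate Sq.rot (k2 + k') (F j') :=
    (Function.iterate_add_apply Sq.rot k2 k' (F j')).symm
  rw [hiter] at hk21 hk22
  have hW' : Wle F (F j') 5 ω := Wle_mono hW (by norm_num) (by norm_num) (by
    have h3 : p' ^ 2 + q' ^ 2 = dd (F j) (F j') := GD2_pq k (F j) (F j')
    rw [← h3]
    nlinarith)
  obtain ⟨j'', hj''1, hj''2, hj''3, hj''4⟩ := strong2 hF j' (k2 + k') h0 h1 hW'
  set S'' := Nat.iterate Sq.rot (k2 + k') (F j') with hS''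
  have hsq1 : pp S'' (F i) ^ 2 + qq S'' (F i) ^ 2 = dd (F j') (F i) := GD2_pq _ _ _
  have hsq2 : P ^ 2 + Q ^ 2 = dd (F j') (F i) := GD2_pq _ _ _
  have hq3 : qq S'' (F i) ^ 2 = P ^ 2 := by
    have : pp S'' (F i) ^ 2 = Q ^ 2 := by rw [hk21, sq_abs]
    linarith
  have hq4 : |qq S'' (F i)| ≤ 3002 / 10000 := by
    have : |qq S'' (F i)| = |P| := (sq_eq_sq_iff_abs_eq_abs _ _).1 hq3
    rw [this]; exact hPab
  obtain ⟨g1, g2⟩ := abs_le.1 hq4
  obtain ⟨g3, g4⟩ := abs_le.1 hj''3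
  obtain ⟨g5, g6⟩ := abs_le.1 hj''4
  have hdd3 := GD2_dd S'' (F j'') (F i)
  have hlt3 : dd (F j'') (F i) < 1 := by
    rw [← hdd3]
    have h3 : |pp S'' (F i) - pp S'' (F j'')| ≤ 53 / 100 := by
      rw [abs_le]; constructor <;> linarith
    have h4 : |qq S'' (F i) - qq S'' (F j'')| ≤ 83 / 100 := by
      rw [abs_le]; constructor <;> linarith
    have h5 : (pp S'' (F i) - pp S'' (F j'')) ^ 2 ≤ (53 / 100) ^ 2 := by
      rw [← sq_abs]; exact pow_le_pow_left₀ (abs_nonneg _) h3 2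
    have h6 : (qq S'' (F i) - qq S'' (F j'')) ^ 2 ≤ (83 / 100) ^ 2 := by
      rw [← sq_abs]; exact pow_le_pow_left₀ (abs_nonneg _) h4 2
    norm_num at h5 h6 ⊢
    linarith
  have hij : j'' = i := hsame _ _ hlt3
  rw [hij] at hj''2
  have := al_tri (F j) (F j') (F i)
  linarith

end SqL
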