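import Pool.Agent.Lib.MP_e85462_co.G.B3
import Pool.Agent.Lib.MP_e85462_co.G.C6
import Pool.Agent.Lib.MP_e85462_co.G.D2

open MeasureTheory Set

namespace SqL

theorem GD1_n1 (k : ℕ) (S T : Sq) : n1 (Nat.iterate Sq.rot k S) T = n1 S T := by
  induction k generalizing S with
  | zero => rfl
  | succ k ih =>
    have h1 := ih S.rot
    rw [n1_rot] at h1
    exact h1

/-- one step of the walk from `F j` towards `F i`: the bigger coordinate is at least 1 -/
theorem walk1 {ι : Type} [Fintype ι] {F : ι → Sq} (hF : Packing F) (i j : ι)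
    {ω : ℝ} (h0 : 0 < ω) (h1 : ω ≤ 1 / 10 ^ 12) (hW : Wle F (F j) 5 ω)
    (hn : n1 (F j) (F i) ≤ 10) (hp : 1 ≤ max |pp (F j) (F i)| |qq (F j) (F i)|) :
    ∃ j', al (F j) (F j') ≤ 10 ^ 6 * ω ∧ n1 (F j') (F i) ≤ n1 (F j) (F i) - 2 / 5 := by
  obtain ⟨k, hk1, hk2⟩ := GD2_wlog (F j) (F i)
  obtain ⟨j', hj, ha, hx, hy⟩ := strong2 hF j k h0 h1 hW
  refine ⟨j', ha, ?_⟩
  have hω : ω * 10 ^ 6 ≤ 1 / 10 ^ 6 := by
    calc ω * 10 ^ 6 ≤ (1 / 10 ^ 12) * 10 ^ 6 := by gcongr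
      _ = 1 / 10 ^ 6 := by norm_num
  have hnn : n1 (Nat.iterate Sq.rot k (F j)) (F i) = n1 (F j) (F i) := GD1_n1 k _ _
  have hch := n1_change (Nat.iterate Sq.rot k (F j)) (F j') (F i)
  rw [GD2_al] at hch
  rw [← hk1] at hp
  rw [← hnn] at hn ⊢
  unfold n1 at hn
  have hn0 : n1 (Nat.iterate Sq.rot k (F j)) (F i) =
    |pp (Nat.iterate Sq.rot k (F j)) (F i)| + |qq (Nat.iterate Sq.rot k (F j)) (F i)| := rfl
  rw [hn0]
  have hal0 := al_nonneg (F j) (F j')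
  generalize pp (Nat.iterate Sq.rot k (F j)) (F i) = p at *
  generalize qq (Nat.iterate Sq.rot k (F j)) (F i) = q at *
  generalize pp (Nat.iterate Sq.rot k (F j)) (F j') = p' at *
  generalize qq (Nat.iterate Sq.rot k (F j)) (F j') = q' at *
  generalize al (F j) (F j') = e at *
  have hpa : |p| = p := abs_of_nonneg (by linarith)
  rw [hpa] at hn ⊢
  have b1 : |p - p'| ≤ p - 1 + 2 / 10 ^ 6 := by
    rw [abs_le] at hx ⊢
    constructor <;> linarith [hx.1, hx.2]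
  have b2 : |q - q'| ≤ |q| + 13 / 25 := by
    have := abs_sub q q'
    linarith
  have he : e ≤ 1 / 10 ^ 6 := by linarith
  have hq0 := abs_nonneg q
  have hsum : |p - p'| + |q - q'| ≤ p + |q| - 12 / 25 + 2 / 10 ^ 6 := by linarith
  have hsum0 : 0 ≤ |p - p'| + |q - q'| := by positivity
  calc n1 (F j') (F i) ≤ (1 + e) * (|p - p'| + |q - q'|) := hch
    _ = (|p - p'| + |q - q'|) + e * (|p - p'| + |q - q'|) := by ring
    _ ≤ (p + |q| - 12 / 25 + 2 / 10 ^ 6) + (1 / 10 ^ 6) * 10 := by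
        have h3 : e * (|p - p'| + |q - q'|) ≤ (1 / 10 ^ 6) * 10 := by
          apply mul_le_mul he _ hsum0 (by norm_num)
          linarith
        linarith
    _ ≤ p + |q| - 2 / 5 := by norm_num; linarith

end SqL
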