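import Pool.Agent.Lib.MP_e85462_co.G.A1
import Pool.Agent.Lib.MP_e85462_co.G.A2
import Pool.Agent.Lib.MP_e85462_co.G.A5
import Pool.Agent.Lib.MP_e85462_co.G.B1
import Pool.Agent.Lib.MP_e85462_co.G.D1
import Pool.Agent.Lib.MP_e85462_co.G.D2

open MeasureTheory Set

namespace SqL

theorem GD3_dd_le (S T : Sq) : dd S T ≤ n1 S T ^ 2 := by
  rw [← pq_sq S T, n1]
  have h1 := abs_nonneg (pp S T)
  have h2 := abs_nonneg (qq S T)
  nlinarith [sq_abs (pp S T), sq_abs (qq S T), mul_nonneg h1 h2]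

theorem GD3_walk {ι : Type} [Fintype ι] {F : ι → Sq} (hF : Packing F) (i : ι)
    {ω : ℝ} (h0 : 0 < ω) (h1 : ω ≤ 1 / 10 ^ 12) (hW : Wle F (F i) 13 ω) (n : ℕ) :
    ∀ j : ι, n1 (F j) (F i) < 1 + 2 / 5 * (n : ℝ) → n1 (F j) (F i) ≤ 71 / 10 →
      al (F j) (F i) ≤ ((n : ℝ) + 2) * 10 ^ 6 * ω := by
  induction n with
  | zero =>
    intro j hj _
    have hnn : 0 ≤ n1 (F j) (F i) := add_nonneg (abs_nonneg _) (abs_nonneg _)
    have hdd : dd (F j) (F i) < 1 := by
      refine (GD3_dd_le _ _).trans_lt ?_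
      have : n1 (F j) (F i) < 1 := by simpa using hj
      nlinarith
    have hji : j = i := by
      by_contra hne
      exact absurd (dist_one (hF j i hne)) (not_le.mpr hdd)
    rw [hji, al_self]
    positivity
  | succ n ih =>
    intro j hj hj7
    have hnn : 0 ≤ n1 (F j) (F i) := add_nonneg (abs_nonneg _) (abs_nonneg _)
    have hdd : dd (F i) (F j) ≤ n1 (F j) (F i) ^ 2 := by
      rw [dd_comm]; exact GD3_dd_le _ _
    push_cast at hj ⊢
    rcases le_or_gt 1 (max |pp (F j) (F i)| |qq (F j) (F i)|) with hm | hm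
    · have hW5 : Wle F (F j) 5 ω := by
        refine Wle_mono hW (by norm_num) (by norm_num) (hdd.trans ?_)
        nlinarith
      obtain ⟨j', hj1, hj2⟩ := walk1 hF i j h0 h1 hW5 (by linarith) hm
      have h3 := ih j' (by linarith) (by linarith)
      have h4 := al_tri (F j) (F j') (F i)
      nlinarith
    · have hp := (le_max_left |pp (F j) (F i)| |qq (F j) (F i)|).trans_lt hm
      have hq := (le_max_right |pp (F j) (F i)| |qq (F j) (F i)|).trans_lt hm
      have hdd2 : dd (F i) (F j) ≤ 9 := by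
        rw [dd_comm, ← pq_sq]
        nlinarith [abs_nonneg (pp (F j) (F i)), abs_nonneg (qq (F j) (F i)),
          sq_abs (pp (F j) (F i)), sq_abs (qq (F j) (F i))]
      have hW10 : Wle F (F j) 10 ω :=
        Wle_mono hW (by norm_num) (by norm_num) (hdd2.trans (by norm_num))
      have h3 := walk2 hF i j h0 h1 hW10 hm
      refine h3.trans ?_
      have hn0 : (0 : ℝ) ≤ (n : ℝ) := Nat.cast_nonneg n
      nlinarith [mul_nonneg hn0 h0.le]

theorem align0 {ι : Type} [Fintype ι] {F : ι → Sq} (hF : Packing F) (i j : ι)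
    {ω : ℝ} (h0 : 0 < ω) (h1 : ω ≤ 1 / 10 ^ 12) (hW : Wle F (F i) 13 ω)
    (hd : dd (F i) (F j) ≤ 25) : al (F i) (F j) ≤ 2 * 10 ^ 7 * ω := by
  have hn : n1 (F j) (F i) ≤ 71 / 10 := by
    have hnn : 0 ≤ n1 (F j) (F i) := add_nonneg (abs_nonneg _) (abs_nonneg _)
    have hsq : n1 (F j) (F i) ^ 2 ≤ 50 := by
      have e := pq_sq (F j) (F i)
      rw [dd_comm] at e
      rw [n1]
      nlinarith [sq_nonneg (|pp (F j) (F i)| - |qq (F j) (F i)|),
        sq_abs (pp (F j) (F i)), sq_abs (qq (F j) (F i))]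
    nlinarith
  have h2 := GD3_walk hF i h0 h1 hW 16 j (by push_cast; linarith) hn
  rw [al_comm]
  refine h2.trans ?_
  push_cast
  nlinarith

theorem align {ι : Type} [Fintype ι] {F : ι → Sq} (hF : Packing F) (i j : ι)
    {ω : ℝ} (h0 : 0 ≤ ω) (h1 : ω ≤ 1 / 10 ^ 13) (hW : Wle F (F i) 13 ω)
    (hd : dd (F i) (F j) ≤ 25) : al (F i) (F j) ≤ 2 * 10 ^ 7 * ω := by
  refine le_of_forall_pos_le_add fun δ hδ => ?_
  set ε : ℝ := min (1 / 10 ^ 13) (δ / (2 * 10 ^ 7)) with hε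
  have hε0 : 0 < ε := lt_min (by norm_num) (by positivity)
  have hε1 : ε ≤ 1 / 10 ^ 13 := min_le_left _ _
  have hε2 : ε ≤ δ / (2 * 10 ^ 7) := min_le_right _ _
  have hW' : Wle F (F i) 13 (ω + ε) :=
    le_trans hW (ENNReal.ofReal_le_ofReal (by linarith))
  have h2 := align0 hF i j (ω := ω + ε) (by linarith) (by
    have : (1 : ℝ) / 10 ^ 13 + 1 / 10 ^ 13 ≤ 1 / 10 ^ 12 := by norm_num
    linarith) hW' hd
  have h3 : 2 * 10 ^ 7 * ε ≤ δ := by
    have := mul_le_mul_of_nonneg_left hε2 (show (0 : ℝ) ≤ 2 * 10 ^ 7 by norm_num)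
    have e : (2 * 10 ^ 7 : ℝ) * (δ / (2 * 10 ^ 7)) = δ := by
      field_simp
    linarith
  linarith

end SqL
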