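import Mathlib

/-!
# MP_e85462_co, lower bound: local geometry of packings of unit squares. Definitions.
-/

open MeasureTheory Set

namespace SqL

/-- A unit square, given by its centre `(x, y)` and a unit vector `(c, s)` parallel to a side. -/
structure Sq where
  x : ℝ
  y : ℝ
  c : ℝ
  s : ℝ
  h : c ^ 2 + s ^ 2 = 1

/-- centre -/
def Sq.m (S : Sq) : ℝ × ℝ := (S.x, S.y)

/-- first coordinate of `z` in the frame of `S` -/
def Sq.fa (S : Sq) (z : ℝ × ℝ) : ℝ := (z.1 - S.x) * S.c + (z.2 - S.y) * S.s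

/-- second coordinate of `z` in the frame of `S` -/
def Sq.fb (S : Sq) (z : ℝ × ℝ) : ℝ := (z.2 - S.y) * S.c - (z.1 - S.x) * S.s

/-- open square -/
def Sq.op (S : Sq) : Set (ℝ × ℝ) := {z | |S.fa z| < 1 / 2 ∧ |S.fb z| < 1 / 2}

/-- closed square -/
def Sq.cl (S : Sq) : Set (ℝ × ℝ) := {z | |S.fa z| ≤ 1 / 2 ∧ |S.fb z| ≤ 1 / 2}

/-- quarter turn of the frame (the same square) -/
def Sq.rot (S : Sq) : Sq := ⟨S.x, S.y, -S.s, S.c, by nlinarith [S.h]⟩

/-- mirror image in the first axis: `(x, y) ↦ (x, -y)` -/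
def Sq.mir (S : Sq) : Sq := ⟨S.x, -S.y, S.c, -S.s, by nlinarith [S.h]⟩

/-- the standard square -/
def std : Sq := ⟨0, 0, 1, 0, by norm_num⟩

/-- the square `T` seen in the frame of `S` -/
def Sq.rel (T S : Sq) : Sq :=
  ⟨S.fa T.m, S.fb T.m, S.c * T.c + S.s * T.s, S.c * T.s - S.s * T.c, by
    have h1 := S.h
    have h2 := T.h
    have : (S.c * T.c + S.s * T.s) ^ 2 + (S.c * T.s - S.s * T.c) ^ 2 =
      (S.c ^ 2 + S.s ^ 2) * (T.c ^ 2 + T.s ^ 2) := by ring
    rw [this, h1, h2, one_mul]⟩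

/-- misalignment of two squares: the sine of their angle modulo 90 degrees -/
noncomputable def al (S T : Sq) : ℝ :=
  min |S.c * T.c + S.s * T.s| |S.c * T.s - S.s * T.c|

/-- first coordinate of the centre of `T` in the frame of `S` -/
def pp (S T : Sq) : ℝ := S.fa T.m

/-- second coordinate of the centre of `T` in the frame of `S` -/
def qq (S T : Sq) : ℝ := S.fb T.m

/-- Euclidean closed disc -/
def disc (z : ℝ × ℝ) (R : ℝ) : Set (ℝ × ℝ) := {w | (w.1 - z.1) ^ 2 + (w.2 - z.2) ^ 2 ≤ R ^ 2}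

/-- squared distance of the centres -/
def dd (S T : Sq) : ℝ := (T.x - S.x) ^ 2 + (T.y - S.y) ^ 2

/-- l1 norm, in the frame of `S`, of the vector from the centre of `S` to the centre of `T` -/
def n1 (S T : Sq) : ℝ := |pp S T| + |qq S T|

/-- a packing: pairwise disjoint open squares -/
def Packing {ι : Type} (F : ι → Sq) : Prop := ∀ i j, i ≠ j → Disjoint (F i).op (F j).op

/-- uncovered part of a set -/
def unc {ι : Type} (F : ι → Sq) (A : Set (ℝ × ℝ)) : Set (ℝ × ℝ) := A \ ⋃ i, (F i).cl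

/-- the uncovered area near the square `S` is at most `ω` -/
def Wle {ι : Type} (F : ι → Sq) (S : Sq) (R ω : ℝ) : Prop :=
  volume (unc F (disc S.m R)) ≤ ENNReal.ofReal ω

/-- `T` is a right neighbour of `S` -/
def RN (S T : Sq) : Prop := 3 / 4 ≤ pp S T ∧ pp S T ≤ 5 / 4 ∧ |qq S T| < 1

/-- `T` is a bottom neighbour of `S` -/
def BN (S T : Sq) : Prop := 3 / 4 ≤ -qq S T ∧ -qq S T ≤ 5 / 4 ∧ |pp S T| < 1

open Classical in
/-- the right neighbours of `F i` -/
noncomputable def RNs {ι : Type} [Fintype ι] (F : ι → Sq) (i : ι) : Finset ι :=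
  Finset.univ.filter fun j => RN (F i) (F j)

/-- chord of `T` on the vertical line of abscissa `x`, at heights between `-1/2` and `1/2` -/
def vch (T : Sq) (x : ℝ) : Set ℝ := {y | |y| ≤ 1 / 2 ∧ (x, y) ∈ T.cl}

/-- canonical frame: the tilt is between -45 and 45 degrees -/
def Sq.can (S : Sq) : Prop := |S.s| ≤ S.c

end SqL
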