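import Pool.Agent.Lib.MP_e85462_co.G.B1

open MeasureTheory Set

namespace SqL

theorem GE1_box {A : Set (ℝ × ℝ)} {a b c d r : ℝ} (h : A ⊆ Icc a b ×ˢ Icc c d) (hab : a ≤ b)
    (hr : (b - a) * (d - c) ≤ r) : volume A ≤ ENNReal.ofReal r := by
  refine (measure_mono h).trans ?_
  rw [Measure.volume_eq_prod, Measure.prod_prod, Real.volume_Icc, Real.volume_Icc,
    ← ENNReal.ofReal_mul (by linarith)]
  exact ENNReal.ofReal_le_ofReal hr

/-- a square meeting the strip `[1/2, 3/4] × [-1/2, 1/2]` -/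
theorem strip_area {T : Sq} (hT : Disjoint std.op T.op) {θ : ℝ} (h0 : 0 ≤ θ)
    (h1 : θ ≤ 1 / 1000) (ha : al std T ≤ θ) :
    (volume (T.cl ∩ {z : ℝ × ℝ | 1 / 2 ≤ z.1 ∧ z.1 ≤ 3 / 4 ∧ |z.2| ≤ 1 / 2}) ≤
        ENNReal.ofReal (2 * θ) ∨
      (RN std T ∧
        volume (T.cl ∩ {z : ℝ × ℝ | 1 / 2 ≤ z.1 ∧ z.1 ≤ 3 / 4 ∧ |z.2| ≤ 1 / 2}) ≤
        ENNReal.ofReal ((5 / 4 - T.x) * (1 - |T.y|) + 2 * θ))) := by
  have hpp : pp std T = T.x := by simp [pp, Sq.fa, std, Sq.m]
  have hqq : qq std T = T.y := by simp [qq, Sq.fb, std, Sq.m]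
  have hsep := sep hT
  rw [hpp, hqq] at hsep
  have hext : ∀ z ∈ T.cl, |z.1 - T.x| ≤ (1 + θ) / 2 ∧ |z.2 - T.y| ≤ (1 + θ) / 2 := by
    intro z hz
    have h2 := ext (S := std) hz
    rw [hpp, hqq] at h2
    have e1 : std.fa z = z.1 := by simp [Sq.fa, std]
    have e2 : std.fb z = z.2 := by simp [Sq.fb, std]
    rw [e1, e2] at h2
    exact ⟨h2.1.trans (by linarith), h2.2.trans (by linarith)⟩
  by_cases hy : 1 - θ ≤ |T.y|
  · -- far above or below
    left
    rcases le_total 0 T.y with hs | hs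
    · rw [abs_of_nonneg hs] at hy
      refine GE1_box (a := 1 / 2) (b := 3 / 4) (c := 1 / 2 - 3 * θ / 2) (d := 1 / 2) ?_
        (by norm_num) (by nlinarith)
      rintro z ⟨hz, hz1, hz2, hz3⟩
      obtain ⟨h2, h3⟩ := hext z hz
      rw [abs_le] at h2 h3 hz3
      refine mem_prod.2 ⟨⟨hz1, hz2⟩, ⟨by linarith, hz3.2⟩⟩
    · rw [abs_of_nonpos hs] at hy
      refine GE1_box (a := 1 / 2) (b := 3 / 4) (c := -1 / 2) (d := -1 / 2 + 3 * θ / 2) ?_
        (by norm_num) (by nlinarith)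
      rintro z ⟨hz, hz1, hz2, hz3⟩
      obtain ⟨h2, h3⟩ := hext z hz
      rw [abs_le] at h2 h3 hz3
      refine mem_prod.2 ⟨⟨hz1, hz2⟩, ⟨by linarith, by linarith⟩⟩
  · rw [not_le] at hy
    have hx : 1 - θ ≤ |T.x| := by
      rcases le_max_iff.1 hsep with h2 | h2
      · linarith
      · linarith
    rcases le_total 0 T.x with hs | hs
    · rw [abs_of_nonneg hs] at hx
      by_cases hx2 : 5 / 4 < T.x
      · left
        refine GE1_box (a := 3 / 4 - θ / 2) (b := 3 / 4) (c := -1 / 2) (d := 1 / 2) ?_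
          (by linarith) (by nlinarith)
        rintro z ⟨hz, hz1, hz2, hz3⟩
        obtain ⟨h2, h3⟩ := hext z hz
        rw [abs_le] at h2 h3 hz3
        refine mem_prod.2 ⟨⟨by linarith, hz2⟩, ⟨by linarith, by linarith⟩⟩
      · rw [not_lt] at hx2
        right
        refine ⟨⟨by rw [hpp]; linarith, by rw [hpp]; exact hx2, by rw [hqq]; linarith⟩, ?_⟩
        have hy0 := abs_nonneg T.y
        have key : (5 / 4 - T.x + θ / 2) * (1 - |T.y| + θ / 2) ≤
            (5 / 4 - T.x) * (1 - |T.y|) + 2 * θ := by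
          have h5 : 0 ≤ 5 / 4 - T.x := by linarith
          have h6 : (5 / 4 - T.x) ≤ 1 := by linarith
          have h7 : θ * (5 / 4 - T.x) ≤ θ * 1 := mul_le_mul_of_nonneg_left h6 h0
          have h8 : θ * (1 - |T.y|) ≤ θ * 1 := mul_le_mul_of_nonneg_left (by linarith) h0
          have h9 : θ * θ ≤ θ * 1 := mul_le_mul_of_nonneg_left (by linarith) h0
          nlinarith
        rcases le_total 0 T.y with hs' | hs'
        · rw [abs_of_nonneg hs'] at hy hy0 key ⊢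
          refine GE1_box (a := T.x - (1 + θ) / 2) (b := 3 / 4) (c := T.y - (1 + θ) / 2) (d := 1 / 2)
            ?_ (by linarith) (by nlinarith)
          rintro z ⟨hz, hz1, hz2, hz3⟩
          obtain ⟨h2, h3⟩ := hext z hz
          rw [abs_le] at h2 h3 hz3
          refine mem_prod.2 ⟨⟨by linarith, hz2⟩, ⟨by linarith, by linarith⟩⟩
        · rw [abs_of_nonpos hs'] at hy hy0 key ⊢
          refine GE1_box (a := T.x - (1 + θ) / 2) (b := 3 / 4) (c := -1 / 2) (d := T.y + (1 + θ) / 2)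
            ?_ (by linarith) (by nlinarith)
          rintro z ⟨hz, hz1, hz2, hz3⟩
          obtain ⟨h2, h3⟩ := hext z hz
          rw [abs_le] at h2 h3 hz3
          refine mem_prod.2 ⟨⟨by linarith, hz2⟩, ⟨by linarith, by linarith⟩⟩
    · rw [abs_of_nonpos hs] at hx
      left
      refine GE1_box (a := 0) (b := 0) (c := 0) (d := 0) ?_ le_rfl (by nlinarith)
      rintro z ⟨hz, hz1, hz2, hz3⟩
      obtain ⟨h2, h3⟩ := hext z hz
      rw [abs_le] at h2
      exfalso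
      linarith

end SqL
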