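import Pool.Agent.Lib.MP_e85462_co.G.C1
import Pool.Agent.Lib.MP_e85462_co.G.D3
import Pool.Agent.Lib.MP_e85462_co.G.E1

open MeasureTheory Set

namespace SqL

/-- the strip -/
private def GE2_Z : Set (ℝ × ℝ) := {z : ℝ × ℝ | 1 / 2 ≤ z.1 ∧ z.1 ≤ 3 / 4 ∧ |z.2| ≤ 1 / 2}

private theorem GE2_fa (z : ℝ × ℝ) : std.fa z = z.1 := by
  unfold Sq.fa std
  dsimp only
  ring

private theorem GE2_fb (z : ℝ × ℝ) : std.fb z = z.2 := by
  unfold Sq.fb std
  dsimp only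
  ring

private theorem GE2_vol : volume GE2_Z = ENNReal.ofReal (1 / 4) := by
  have e : GE2_Z = Icc (1 / 2 : ℝ) (3 / 4) ×ˢ Icc (-(1 / 2) : ℝ) (1 / 2) := by
    ext z
    simp only [GE2_Z, mem_setOf_eq, mem_prod, mem_Icc, abs_le]
    tauto
  rw [e, Measure.volume_eq_prod, Measure.prod_prod, Real.volume_Icc, Real.volume_Icc,
    ← ENNReal.ofReal_mul (by norm_num)]
  congr 1
  norm_num

private theorem GE2_self : volume (std.cl ∩ GE2_Z) = 0 := by
  have e : std.cl ∩ GE2_Z ⊆ ({1 / 2} : Set ℝ) ×ˢ (univ : Set ℝ) := by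
    rintro z ⟨h1, h2⟩
    have h3 : |std.fa z| ≤ 1 / 2 := h1.1
    rw [GE2_fa] at h3
    have h4 : 1 / 2 ≤ z.1 := h2.1
    refine ⟨?_, mem_univ _⟩
    rw [mem_singleton_iff]
    exact le_antisymm ((le_abs_self _).trans h3) h4
  refine measure_mono_null e ?_
  rw [Measure.volume_eq_prod, Measure.prod_prod, Real.volume_singleton, zero_mul]

private theorem GE2_dist {T : Sq} {w : ℝ × ℝ} (h : w ∈ T.cl) (hw : w ∈ GE2_Z) :
    dd std T ≤ 25 := by
  obtain ⟨h1, h2⟩ := h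
  have e : (w.1 - T.x) ^ 2 + (w.2 - T.y) ^ 2 = T.fa w ^ 2 + T.fb w ^ 2 := by
    have : T.fa w ^ 2 + T.fb w ^ 2 = (T.c ^ 2 + T.s ^ 2) * ((w.1 - T.x) ^ 2 + (w.2 - T.y) ^ 2) := by
      unfold Sq.fa Sq.fb
      ring
    rw [this, T.h, one_mul]
  have e1 : T.fa w ^ 2 ≤ (1 / 2) ^ 2 := sq_le_sq' (abs_le.1 h1).1 (abs_le.1 h1).2
  have e2 : T.fb w ^ 2 ≤ (1 / 2) ^ 2 := sq_le_sq' (abs_le.1 h2).1 (abs_le.1 h2).2
  have e3 : w.1 ^ 2 ≤ (3 / 4) ^ 2 := sq_le_sq' (by linarith [hw.1]) hw.2.1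
  have e4 : w.2 ^ 2 ≤ (1 / 2) ^ 2 := sq_le_sq' (abs_le.1 hw.2.2).1 (abs_le.1 hw.2.2).2
  have e5 : dd std T = T.x ^ 2 + T.y ^ 2 := by
    unfold dd std
    dsimp only
    ring
  rw [e5]
  nlinarith [sq_nonneg (T.x - 2 * w.1), sq_nonneg (T.y - 2 * w.2)]

theorem cover0 {ι : Type} [Fintype ι] {F : ι → Sq} (hF : Packing F) (i : ι) (hi : F i = std)
    {ω : ℝ} (h0 : 0 ≤ ω) (h1 : ω ≤ 1 / 10 ^ 13) (hW : Wle F std 13 ω) :
    1 / 4 ≤ ∑ j ∈ RNs F i, (5 / 4 - (F j).x) * (1 - |(F j).y|) + 3 * 10 ^ 9 * ω := by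
  classical
  set θ : ℝ := 2 * 10 ^ 7 * ω with hθ
  have hθ0 : 0 ≤ θ := by positivity
  have hθ1 : θ ≤ 1 / 1000 := by
    norm_num at h1
    rw [hθ]
    linarith
  -- the terms
  let g : ι → ℝ := fun j => if RN (F i) (F j) then (5 / 4 - (F j).x) * (1 - |(F j).y|) else 0
  have hg0 : ∀ j, 0 ≤ g j := by
    intro j
    dsimp only [g]
    split_ifs with h
    · obtain ⟨-, a2, a3⟩ := h
      have hp : pp (F i) (F j) = (F j).x := by rw [hi]; exact GE2_fa _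
      have hq : qq (F i) (F j) = (F j).y := by rw [hi]; exact GE2_fb _
      rw [hp] at a2
      rw [hq] at a3
      exact mul_nonneg (by linarith) (by linarith)
    · exact le_rfl
  have hsum : ∑ j ∈ RNs F i, (5 / 4 - (F j).x) * (1 - |(F j).y|) = ∑ j, g j := by
    unfold RNs
    rw [Finset.sum_filter]
  -- the squares meeting the strip
  let J : Finset ι := Finset.univ.filter fun j => ((F j).cl ∩ GE2_Z).Nonempty
  have hJ : J.card ≤ 50 := by
    refine count hF (0, 0) J ?_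
    intro j hj
    obtain ⟨w, hw1, hw2⟩ := (Finset.mem_filter.1 hj).2
    refine ⟨w, hw1, ?_⟩
    have e3 : w.1 ^ 2 ≤ (3 / 4) ^ 2 := sq_le_sq' (by linarith [hw2.1]) hw2.2.1
    have e4 : w.2 ^ 2 ≤ (1 / 2) ^ 2 := sq_le_sq' (abs_le.1 hw2.2.2).1 (abs_le.1 hw2.2.2).2
    show (w.1 - 0) ^ 2 + (w.2 - 0) ^ 2 ≤ 2 ^ 2
    rw [sub_zero, sub_zero]
    norm_num at e3 e4 ⊢
    linarith
  have hbd : ∀ j ∈ J, volume ((F j).cl ∩ GE2_Z) ≤ ENNReal.ofReal (g j + 2 * θ) := by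
    intro j hj
    obtain ⟨w, hw1, hw2⟩ := (Finset.mem_filter.1 hj).2
    by_cases hij : j = i
    · rw [hij, hi, GE2_self]
      exact zero_le
    · have hd : Disjoint std.op (F j).op := by
        rw [← hi]
        exact hF i j (Ne.symm hij)
      have hal : al std (F j) ≤ θ := by
        have := align hF i j h0 h1 (by rw [hi]; exact hW) (by rw [hi]; exact GE2_dist hw1 hw2)
        rwa [hi] at this
      rcases strip_area hd hθ0 hθ1 hal with h | ⟨hr, h⟩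
      · refine h.trans (ENNReal.ofReal_le_ofReal ?_)
        linarith [hg0 j]
      · refine h.trans (ENNReal.ofReal_le_ofReal ?_)
        have : g j = (5 / 4 - (F j).x) * (1 - |(F j).y|) := by
          dsimp only [g]
          rw [if_pos (by rw [hi]; exact hr)]
        rw [this]
  have hcov : GE2_Z ⊆ unc F (disc std.m 13) ∪ ⋃ j ∈ J, ((F j).cl ∩ GE2_Z) := by
    intro z hz
    by_cases h : ∃ j, z ∈ (F j).cl
    · obtain ⟨j, hj⟩ := h
      right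
      rw [mem_iUnion₂]
      exact ⟨j, Finset.mem_filter.2 ⟨Finset.mem_univ _, z, hj, hz⟩, hj, hz⟩
    · left
      refine ⟨?_, ?_⟩
      · have e3 : z.1 ^ 2 ≤ (3 / 4) ^ 2 := sq_le_sq' (by linarith [hz.1]) hz.2.1
        have e4 : z.2 ^ 2 ≤ (1 / 2) ^ 2 := sq_le_sq' (abs_le.1 hz.2.2).1 (abs_le.1 hz.2.2).2
        show (z.1 - 0) ^ 2 + (z.2 - 0) ^ 2 ≤ 13 ^ 2
        rw [sub_zero, sub_zero]
        norm_num at e3 e4 ⊢
        linarith
      · rw [mem_iUnion]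
        exact h
  have hvol : ENNReal.ofReal (1 / 4) ≤ ENNReal.ofReal (ω + ∑ j ∈ J, (g j + 2 * θ)) := by
    rw [← GE2_vol, ENNReal.ofReal_add h0 (Finset.sum_nonneg fun j _ => by linarith [hg0 j]),
      ENNReal.ofReal_sum_of_nonneg (fun j _ => by linarith [hg0 j])]
    refine (measure_mono hcov).trans ((measure_union_le _ _).trans (add_le_add hW ?_))
    exact (measure_biUnion_finset_le _ _).trans (Finset.sum_le_sum hbd)
  rw [ENNReal.ofReal_le_ofReal_iff (by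
    refine add_nonneg h0 (Finset.sum_nonneg fun j _ => by linarith [hg0 j]))] at hvol
  rw [Finset.sum_add_distrib, Finset.sum_const, nsmul_eq_mul] at hvol
  have hJ' : (J.card : ℝ) ≤ 50 := by exact_mod_cast hJ
  have h5 : (J.card : ℝ) * (2 * θ) ≤ 50 * (2 * θ) :=
    mul_le_mul_of_nonneg_right hJ' (by linarith)
  have h6 : ∑ j ∈ J, g j ≤ ∑ j, g j :=
    Finset.sum_le_sum_of_subset_of_nonneg (Finset.subset_univ _) fun j _ _ => hg0 j
  rw [hsum]
  rw [hθ] at h5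
  linarith

end SqL
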