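import Pool.Agent.Lib.MP_e85462_co.G.B4
import Pool.Agent.Lib.MP_e85462_co.G.D3

open MeasureTheory Set

namespace SqL

theorem GE3_three (a b c η : ℝ) (hη : η ≤ 1 / 10) (h1 : 1 - η ≤ |a - b|) (h2 : 1 - η ≤ |a - c|)
    (h3 : 1 - η ≤ |b - c|) (hη0 : 0 ≤ η) : (1 - |a|) + ((1 - |b|) + (1 - |c|)) ≤ 1 + 2 * η := by
  have a1 := le_abs_self a
  have a2 := neg_abs_le a
  have a3 := abs_nonneg a
  have b1 := le_abs_self b
  have b2 := neg_abs_le b
  have b3 := abs_nonneg b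
  have c1 := le_abs_self c
  have c2 := neg_abs_le c
  have c3 := abs_nonneg c
  rcases le_abs.1 h1 with h1 | h1 <;> rcases le_abs.1 h2 with h2 | h2 <;>
    rcases le_abs.1 h3 with h3 | h3 <;> linarith

theorem RNs_stack {ι : Type} [Fintype ι] {F : ι → Sq} (hF : Packing F) (i : ι)
    {ω : ℝ} (h0 : 0 ≤ ω) (h1 : ω ≤ 1 / 10 ^ 13) (hW : Wle F (F i) 13 ω) :
    (RNs F i).card ≤ 3 ∧ ∑ j ∈ RNs F i, (1 - |qq (F i) (F j)|) ≤ 1 + 10 ^ 9 * ω ∧
    (∀ j ∈ RNs F i, ∀ k ∈ RNs F i, j ≠ k →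
      1 - 10 ^ 9 * ω ≤ |qq (F i) (F j) - qq (F i) (F k)|) ∧
    (∀ j ∈ RNs F i, |qq (F i) (F j)| < 1 - 10 ^ 8 * ω → 1 - 10 ^ 8 * ω ≤ pp (F i) (F j)) := by
  classical
  have hmem : ∀ j, j ∈ RNs F i ↔ RN (F i) (F j) := by
    intro j
    unfold RNs
    simp
  have hal : ∀ j ∈ RNs F i, al (F i) (F j) ≤ 2 * 10 ^ 7 * ω := by
    intro j hj
    obtain ⟨p1, p2, p3⟩ := (hmem j).1 hj
    apply align hF i j h0 h1 hW
    rw [← pq_sq]
    obtain ⟨q1, q2⟩ := abs_lt.1 p3
    nlinarith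
  have hθ : 2 * 10 ^ 7 * ω ≤ 2 / 10 ^ 6 := by
    calc 2 * 10 ^ 7 * ω ≤ 2 * 10 ^ 7 * (1 / 10 ^ 13) := by gcongr
      _ = 2 / 10 ^ 6 := by norm_num
  have hω9 : 10 ^ 9 * ω ≤ 1 / 10 ^ 4 := by
    calc 10 ^ 9 * ω ≤ 10 ^ 9 * (1 / 10 ^ 13) := by gcongr
      _ = 1 / 10 ^ 4 := by norm_num
  have hsep0 : ∀ j ∈ RNs F i, ∀ k ∈ RNs F i, j ≠ k →
      1 - 10 * (2 * 10 ^ 7 * ω) ≤ |qq (F i) (F j) - qq (F i) (F k)| := by
    intro j hj k hk hjk
    obtain ⟨p1, p2, p3⟩ := (hmem j).1 hj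
    obtain ⟨r1, r2, r3⟩ := (hmem k).1 hk
    obtain ⟨q1, q2⟩ := abs_lt.1 p3
    obtain ⟨s1, s2⟩ := abs_lt.1 r3
    have e1 : |pp (F i) (F j) - pp (F i) (F k)| ≤ 1 / 2 := by
      rw [abs_le]; constructor <;> linarith
    have e2 : |qq (F i) (F j) - qq (F i) (F k)| ≤ 2 := by
      rw [abs_le]; constructor <;> linarith
    have h3 := sep' (hF j k hjk) (hal j hj) (hal k hk) (by linarith) (by linarith)
    rcases le_max_iff.1 h3 with h4 | h4
    · linarith
    · exact h4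
  have hcard : (RNs F i).card ≤ 3 := by
    have hinj : Set.InjOn (fun j => (if qq (F i) (F j) < -(3 / 10) then (0 : Fin 3) else
        if qq (F i) (F j) < 4 / 10 then 1 else 2)) (RNs F i : Set ι) := by
      intro j hj k hk hjk
      by_contra hne
      have h3 := hsep0 j hj k hk hne
      obtain ⟨p1, p2, p3⟩ := (hmem j).1 hj
      obtain ⟨r1, r2, r3⟩ := (hmem k).1 hk
      obtain ⟨q1, q2⟩ := abs_lt.1 p3
      obtain ⟨s1, s2⟩ := abs_lt.1 r3
      have h4 : |qq (F i) (F j) - qq (F i) (F k)| ≤ 7 / 10 := by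
        simp only at hjk
        rw [abs_le]
        split_ifs at hjk <;> first | (constructor <;> linarith) | (exact absurd hjk (by decide))
      linarith
    have := Finset.card_le_card_of_injOn _ (fun j _ => Finset.mem_univ _) hinj
    simpa using this
  refine ⟨hcard, ?_, ?_, ?_⟩
  · have h5 : (RNs F i).card = 0 ∨ (RNs F i).card = 1 ∨ (RNs F i).card = 2 ∨ (RNs F i).card = 3 := by
      omega
    rcases h5 with h5 | h5 | h5 | h5
    · rw [Finset.card_eq_zero.1 h5, Finset.sum_empty]; linarith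
    · obtain ⟨a, ha⟩ := Finset.card_eq_one.1 h5
      rw [ha, Finset.sum_singleton]
      have := abs_nonneg (qq (F i) (F a))
      linarith
    · obtain ⟨a, b, hab, hs⟩ := Finset.card_eq_two.1 h5
      have h3 := hsep0 a (by rw [hs]; simp) b (by rw [hs]; simp) hab
      rw [hs, Finset.sum_pair hab]
      have h4 := abs_sub (qq (F i) (F a)) (qq (F i) (F b))
      linarith
    · obtain ⟨a, b, c, hab, hac, hbc, hs⟩ := Finset.card_eq_three.1 h5
      have h3 := hsep0 a (by rw [hs]; simp) b (by rw [hs]; simp) hab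
      have h4 := hsep0 a (by rw [hs]; simp) c (by rw [hs]; simp) hac
      have h6 := hsep0 b (by rw [hs]; simp) c (by rw [hs]; simp) hbc
      rw [hs, Finset.sum_insert (by simp [hab, hac]), Finset.sum_pair hbc]
      have h7 := GE3_three _ _ _ _ (by linarith) h3 h4 h6 (by positivity)
      linarith
  · intro j hj k hk hjk
    have := hsep0 j hj k hk hjk
    linarith
  · intro j hj hq
    obtain ⟨p1, p2, p3⟩ := (hmem j).1 hj
    have hne : i ≠ j := by
      rintro rfl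
      have : pp (F i) (F i) = 0 := by
        unfold pp Sq.fa Sq.m
        simp
      linarith
    have h3 := sep (hF i j hne)
    have h4 := hal j hj
    rcases le_max_iff.1 h3 with h5 | h5
    · rw [abs_of_nonneg (by linarith)] at h5
      linarith
    · linarith

end SqL
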