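import Pool.Agent.Lib.MP_e85462_co.G.E2
import Pool.Agent.Lib.MP_e85462_co.G.E3
import Pool.Agent.Lib.MP_e85462_co.G.A3
import Pool.Agent.Lib.MP_e85462_co.G.A5

open MeasureTheory Set

namespace SqL

theorem GE4_RNs {ι : Type} [Fintype ι] (F : ι → Sq) (i : ι) :
    RNs (fun j => (F j).rel (F i)) i = RNs F i := by
  classical
  unfold RNs
  apply Finset.filter_congr
  intro j _
  unfold RN
  rw [(rel_pp (F i) (F i) (F j)).1, (rel_pp (F i) (F i) (F j)).2]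

/-- transported form of `cover0` -/
theorem GE4_cov {ι : Type} [Fintype ι] {F : ι → Sq} (hF : Packing F) (i : ι)
    {ω : ℝ} (h0 : 0 ≤ ω) (h1 : ω ≤ 1 / 10 ^ 13) (hW : Wle F (F i) 13 ω) :
    1 / 4 ≤ ∑ j ∈ RNs F i, (5 / 4 - pp (F i) (F j)) * (1 - |qq (F i) (F j)|) + 3 * 10 ^ 9 * ω := by
  have hG := rel_packing hF (F i)
  have hi : (fun j => (F j).rel (F i)) i = std := rel_self (F i)
  have hW' : Wle (fun j => (F j).rel (F i)) std 13 ω := by
    have := rel_Wle (S := F i) hW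
    rwa [rel_self] at this
  have h := cover0 hG i hi h0 h1 hW'
  rw [GE4_RNs] at h
  have e : ∀ j, ((fun j => (F j).rel (F i)) j).x = pp (F i) (F j) ∧
      ((fun j => (F j).rel (F i)) j).y = qq (F i) (F j) := fun j => rel_x (F i) (F j)
  have e2 : ∑ j ∈ RNs F i, (5 / 4 - ((F j).rel (F i)).x) * (1 - |((F j).rel (F i)).y|) =
      ∑ j ∈ RNs F i, (5 / 4 - pp (F i) (F j)) * (1 - |qq (F i) (F j)|) := by
    apply Finset.sum_congr rfl
    intro j _
    rw [(rel_x (F i) (F j)).1, (rel_x (F i) (F j)).2]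
  rw [← e2]
  exact h

/-- covering: gaps and uncovered part of the right side -/
theorem cover {ι : Type} [Fintype ι] {F : ι → Sq} (hF : Packing F) (i : ι)
    {ω : ℝ} (h0 : 0 ≤ ω) (h1 : ω ≤ 1 / 10 ^ 13) (hW : Wle F (F i) 13 ω) :
    ∑ j ∈ RNs F i, |pp (F i) (F j) - 1| * (1 - |qq (F i) (F j)|) ≤ 10 ^ 10 * ω ∧
    1 - 10 ^ 11 * ω ≤ ∑ j ∈ RNs F i, (1 - |qq (F i) (F j)|) := by
  obtain ⟨hc, hs, -, hp⟩ := RNs_stack hF i h0 h1 hW
  have hcov := GE4_cov hF i h0 h1 hW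
  set p : ι → ℝ := fun j => pp (F i) (F j) with hpdef
  set o : ι → ℝ := fun j => 1 - |qq (F i) (F j)| with hodef
  have hs' : ∑ j ∈ RNs F i, o j ≤ 1 + 10 ^ 9 * ω := hs
  have hcov' : 1 / 4 ≤ ∑ j ∈ RNs F i, (5 / 4 - p j) * o j + 3 * 10 ^ 9 * ω := hcov
  have hsum : ∑ j ∈ RNs F i, (5 / 4 - p j) * o j =
      1 / 4 * ∑ j ∈ RNs F i, o j - ∑ j ∈ RNs F i, (p j - 1) * o j := by
    rw [Finset.mul_sum, ← Finset.sum_sub_distrib]
    apply Finset.sum_congr rfl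
    intro j _
    ring
  have hterm : ∀ j ∈ RNs F i, |p j - 1| * o j ≤ (p j - 1) * o j + 2 * 10 ^ 8 * ω ∧
      -(10 ^ 8 * ω) ≤ (p j - 1) * o j := by
    intro j hj
    have hRN : RN (F i) (F j) := by
      classical
      unfold RNs at hj
      exact (Finset.mem_filter.1 hj).2
    obtain ⟨ha, hb, hq⟩ := hRN
    have ho0 : 0 ≤ o j := by simp only [hodef]; linarith
    have ho1 : o j ≤ 1 := by
      simp only [hodef]
      have := abs_nonneg (qq (F i) (F j))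
      linarith
    have hpa : 3 / 4 ≤ p j := ha
    have hpb : p j ≤ 5 / 4 := hb
    have hlow : -(10 ^ 8 * ω) ≤ (p j - 1) * o j := by
      by_cases hcase : |qq (F i) (F j)| < 1 - 10 ^ 8 * ω
      · have h2 : 1 - 10 ^ 8 * ω ≤ p j := hp j hj hcase
        nlinarith
      · have h2 : o j ≤ 10 ^ 8 * ω := by
          simp only [hodef]
          push Not at hcase
          linarith
        nlinarith
    refine ⟨?_, hlow⟩
    rcases le_total 0 (p j - 1) with h | h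
    · rw [abs_of_nonneg h]
      linarith
    · rw [abs_of_nonpos h]
      nlinarith
  have hcard : ((RNs F i).card : ℝ) ≤ 3 := by exact_mod_cast hc
  have hA : ∑ j ∈ RNs F i, |p j - 1| * o j ≤
      ∑ j ∈ RNs F i, (p j - 1) * o j + (RNs F i).card * (2 * 10 ^ 8 * ω) := by
    calc ∑ j ∈ RNs F i, |p j - 1| * o j ≤ ∑ j ∈ RNs F i, ((p j - 1) * o j + 2 * 10 ^ 8 * ω) :=
          Finset.sum_le_sum (fun j hj => (hterm j hj).1)
      _ = ∑ j ∈ RNs F i, (p j - 1) * o j + (RNs F i).card * (2 * 10 ^ 8 * ω) := by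
          rw [Finset.sum_add_distrib, Finset.sum_const, nsmul_eq_mul]
  have hB : -((RNs F i).card * (10 ^ 8 * ω)) ≤ ∑ j ∈ RNs F i, (p j - 1) * o j := by
    calc -((RNs F i).card * (10 ^ 8 * ω)) = ∑ j ∈ RNs F i, (-(10 ^ 8 * ω)) := by
          rw [Finset.sum_const, nsmul_eq_mul]; ring
      _ ≤ ∑ j ∈ RNs F i, (p j - 1) * o j := Finset.sum_le_sum (fun j hj => (hterm j hj).2)
  have hc1 : ((RNs F i).card : ℝ) * (2 * 10 ^ 8 * ω) ≤ 3 * (2 * 10 ^ 8 * ω) :=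
    mul_le_mul_of_nonneg_right hcard (by positivity)
  have hc2 : ((RNs F i).card : ℝ) * (10 ^ 8 * ω) ≤ 3 * (10 ^ 8 * ω) :=
    mul_le_mul_of_nonneg_right hcard (by positivity)
  rw [hsum] at hcov'
  constructor
  · show ∑ j ∈ RNs F i, |p j - 1| * o j ≤ 10 ^ 10 * ω
    nlinarith
  · show 1 - 10 ^ 11 * ω ≤ ∑ j ∈ RNs F i, o j
    nlinarith

end SqL
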