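import Pool.Agent.Lib.MP_e85462_co.G.E4

open MeasureTheory Set

namespace SqL

theorem GE5_three {a b c ε : ℝ} (hε : ε ≤ 1 / 1000) (ha : |a| < 1) (hb : |b| < 1) (hc : |c| < 1)
    (hab : 1 - ε ≤ |a - b|) (hac : 1 - ε ≤ |a - c|) (hbc : 1 - ε ≤ |b - c|)
    (hs : 999 / 1000 ≤ (1 - |a|) + ((1 - |b|) + (1 - |c|))) :
    47 / 100 ≤ 1 - |a| ∨ 47 / 100 ≤ 1 - |b| ∨ 47 / 100 ≤ 1 - |c| := by
  by_contra hcon
  push Not at hcon
  obtain ⟨h1, h2, h3⟩ := hcon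
  rcases abs_cases a with ⟨e1, f1⟩ | ⟨e1, f1⟩ <;> rcases abs_cases b with ⟨e2, f2⟩ | ⟨e2, f2⟩ <;>
    rcases abs_cases c with ⟨e3, f3⟩ | ⟨e3, f3⟩ <;>
    rcases abs_cases (a - b) with ⟨e4, f4⟩ | ⟨e4, f4⟩ <;>
    rcases abs_cases (a - c) with ⟨e5, f5⟩ | ⟨e5, f5⟩ <;>
    rcases abs_cases (b - c) with ⟨e6, f6⟩ | ⟨e6, f6⟩ <;>
    rw [e1] at ha h1 hs <;> rw [e2] at hb h2 hs <;> rw [e3] at hc h3 hs <;> rw [e4] at hab <;>
    rw [e5] at hac <;> rw [e6] at hbc <;> linarith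

/-- exact strong neighbour -/
theorem strong {ι : Type} [Fintype ι] {F : ι → Sq} (hF : Packing F) (i : ι)
    {ω : ℝ} (h0 : 0 ≤ ω) (h1 : ω ≤ 1 / 10 ^ 14) (hW : Wle F (F i) 13 ω) :
    ∃ j, j ≠ i ∧ al (F i) (F j) ≤ 2 * 10 ^ 7 * ω ∧ |pp (F i) (F j) - 1| ≤ 10 ^ 11 * ω ∧
      |qq (F i) (F j)| ≤ 53 / 100 := by
  classical
  have h1' : ω ≤ 1 / 10 ^ 13 := h1.trans (by norm_num)
  obtain ⟨hc1, hc2⟩ := cover hF i h0 h1' hW
  obtain ⟨hs1, -, hs3, -⟩ := RNs_stack hF i h0 h1' hW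
  have hRN : ∀ j ∈ RNs F i, RN (F i) (F j) := by
    intro j hj
    unfold RNs at hj
    exact (Finset.mem_filter.1 hj).2
  have hq : ∀ j ∈ RNs F i, |qq (F i) (F j)| < 1 := fun j hj => (hRN j hj).2.2
  have hω1 : 10 ^ 11 * ω ≤ 1 / 1000 := by
    have : (10 : ℝ) ^ 11 * ω ≤ 10 ^ 11 * (1 / 10 ^ 14) := mul_le_mul_of_nonneg_left h1 (by norm_num)
    refine this.trans (by norm_num)
  have hω2 : 10 ^ 9 * ω ≤ 1 / 1000 := by
    have : (10 : ℝ) ^ 9 * ω ≤ 10 ^ 9 * (1 / 10 ^ 14) := mul_le_mul_of_nonneg_left h1 (by norm_num)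
    refine this.trans (by norm_num)
  have hex : ∃ j ∈ RNs F i, 47 / 100 ≤ 1 - |qq (F i) (F j)| := by
    by_contra hcon
    push Not at hcon
    have hsum : 999 / 1000 ≤ ∑ j ∈ RNs F i, (1 - |qq (F i) (F j)|) := by linarith
    have hcard : (RNs F i).card ≤ 2 ∨ (RNs F i).card = 3 := by omega
    rcases hcard with hcard | hcard
    · have h2 : ∑ j ∈ RNs F i, (1 - |qq (F i) (F j)|) ≤ (RNs F i).card • (47 / 100 : ℝ) :=
        Finset.sum_le_card_nsmul _ _ _ fun j hj => (hcon j hj).le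
      rw [nsmul_eq_mul] at h2
      have h3 : ((RNs F i).card : ℝ) ≤ 2 := by exact_mod_cast hcard
      linarith
    · obtain ⟨a, b, c, hab, hac, hbc, he⟩ := Finset.card_eq_three.1 hcard
      have ma : a ∈ RNs F i := by rw [he]; simp
      have mb : b ∈ RNs F i := by rw [he]; simp
      have mc : c ∈ RNs F i := by rw [he]; simp
      have hsum' := hsum
      rw [he, Finset.sum_insert (by simp [hab, hac]), Finset.sum_insert (by simp [hbc]),
        Finset.sum_singleton] at hsum'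
      rcases GE5_three hω2 (hq a ma) (hq b mb) (hq c mc) (hs3 a ma b mb hab) (hs3 a ma c mc hac)
        (hs3 b mb c mc hbc) hsum' with h | h | h
      · exact absurd h (not_le.2 (hcon a ma))
      · exact absurd h (not_le.2 (hcon b mb))
      · exact absurd h (not_le.2 (hcon c mc))
  obtain ⟨j, hj, hj2⟩ := hex
  have hRj := hRN j hj
  have hterm : |pp (F i) (F j) - 1| * (1 - |qq (F i) (F j)|) ≤ 10 ^ 10 * ω :=
    le_trans (Finset.single_le_sum (f := fun j => |pp (F i) (F j) - 1| * (1 - |qq (F i) (F j)|))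
      (fun k hk => mul_nonneg (abs_nonneg _) (by linarith [hq k hk])) hj) hc1
  refine ⟨j, ?_, ?_, ?_, by linarith⟩
  · rintro rfl
    have : pp (F j) (F j) = 0 := by simp [pp, Sq.fa, Sq.m]
    have h3 := hRj.1
    rw [this] at h3
    norm_num at h3
  · apply align hF i j h0 h1' hW
    rw [← pq_sq]
    have h3 := hRj.1
    have h4 := hRj.2.1
    have h5 := abs_lt.1 hRj.2.2
    nlinarith
  · have h3 := abs_nonneg (pp (F i) (F j) - 1)
    nlinarith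

end SqL
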