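import Pool.Agent.Lib.MP_e85462_co.G.E4

open MeasureTheory Set

namespace SqL

/-- one gap estimate -/
theorem GF1_gap {ι : Type} (s : Finset ι) (p q : ι → ℝ) {ω r : ℝ} (hr : 0 < r)
    (hq1 : ∀ k ∈ s, |q k| < 1)
    (hs1 : ∑ k ∈ s, |p k - 1| * (1 - |q k|) ≤ 10 ^ 10 * ω) {k : ι} (hk : k ∈ s)
    (ho : r ≤ 1 - |q k|) : p k ≤ 1 + 10 ^ 10 * ω / r := by
  have h1 : |p k - 1| * (1 - |q k|) ≤ 10 ^ 10 * ω := by
    refine le_trans ?_ hs1
    exact Finset.single_le_sum (f := fun k => |p k - 1| * (1 - |q k|))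
      (fun l hl => mul_nonneg (abs_nonneg _) (by linarith [hq1 l hl])) hk
  have h2 : |p k - 1| * r ≤ 10 ^ 10 * ω :=
    le_trans (mul_le_mul_of_nonneg_left ho (abs_nonneg _)) h1
  have h3 : |p k - 1| ≤ 10 ^ 10 * ω / r := by rwa [le_div_iff₀ hr]
  linarith [le_abs_self (p k - 1)]

/-- abstract form of the second half -/
theorem GF1_aux {ι : Type} (s : Finset ι) (p q : ι → ℝ) {ω δ : ℝ} (h0 : 0 ≤ ω) (hδ0 : 0 < δ)
    (hδ : 10 ^ 12 * ω < δ ^ 2) (hq1 : ∀ k ∈ s, |q k| < 1)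
    (hpair : ∀ j ∈ s, ∀ k ∈ s, j ≠ k → 1 - 10 ^ 9 * ω ≤ |q j - q k|)
    (hs1 : ∑ k ∈ s, |p k - 1| * (1 - |q k|) ≤ 10 ^ 10 * ω)
    (hs2 : 1 - 10 ^ 11 * ω ≤ ∑ k ∈ s, (1 - |q k|)) (j : ι) (hj : j ∈ s)
    (hq : δ ≤ -q j) (hq' : -q j ≤ 1 - δ) :
    ∃ k ∈ s, p k ≤ 1 + 2 * 10 ^ 10 * ω / δ ∧ δ / 2 ≤ q k ∧ q k ≤ 1 - δ / 2 := by
  classical
  have hδh : δ ≤ 1 / 2 := by linarith
  have hω : 2 * 10 ^ 12 * ω < δ := by nlinarith
  have hlow : ∀ k ∈ s, k ≠ j → q j + 1 - 10 ^ 9 * ω ≤ q k := by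
    intro k hk hne
    have h1 := hpair k hk j hj hne
    have h2 := abs_lt.1 (hq1 k hk)
    rcases le_abs'.1 h1 with h | h
    · exfalso; linarith [h2.1]
    · linarith
  have hoj : 1 - |q j| = 1 + q j := by
    rw [abs_of_neg (by linarith)]; ring
  have hsum : (1 - |q j|) + ∑ k ∈ s.erase j, (1 - |q k|) = ∑ k ∈ s, (1 - |q k|) :=
    Finset.add_sum_erase s (fun k => 1 - |q k|) hj
  have hrest : δ / 2 ≤ ∑ k ∈ s.erase j, (1 - |q k|) := by
    have : -q j - 10 ^ 11 * ω ≤ ∑ k ∈ s.erase j, (1 - |q k|) := by linarith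
    linarith
  have hne : (s.erase j).Nonempty := by
    rw [Finset.nonempty_iff_ne_empty]
    intro he
    rw [he, Finset.sum_empty] at hrest
    linarith
  obtain ⟨k, hk⟩ := hne
  have hks : k ∈ s := Finset.mem_of_mem_erase hk
  have hkj : k ≠ j := Finset.ne_of_mem_erase hk
  have huniq : s.erase j = {k} := by
    rw [Finset.eq_singleton_iff_unique_mem]
    refine ⟨hk, fun l hl => ?_⟩
    by_contra hlk
    have hls : l ∈ s := Finset.mem_of_mem_erase hl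
    have hlj : l ≠ j := Finset.ne_of_mem_erase hl
    have h1 := hlow k hks hkj
    have h2 := hlow l hls hlj
    have h3 := (abs_lt.1 (hq1 k hks)).2
    have h4 := (abs_lt.1 (hq1 l hls)).2
    have h5 := hpair l hls k hks hlk
    have h6 : |q l - q k| < 1 - 10 ^ 9 * ω := by
      rw [abs_lt]; constructor <;> linarith
    linarith
  rw [huniq, Finset.sum_singleton] at hrest
  have hlo := hlow k hks hkj
  have hqk : δ / 2 ≤ q k := by linarith
  have hqpos : 0 < q k := by linarith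
  have hup : q k ≤ 1 - δ / 2 := by
    rw [abs_of_pos hqpos] at hrest; linarith
  refine ⟨k, hks, ?_, hqk, hup⟩
  have := GF1_gap s p q (ω := ω) (r := δ / 2) (by linarith) hq1 hs1 hks hrest
  calc p k ≤ 1 + 10 ^ 10 * ω / (δ / 2) := this
    _ = 1 + 2 * 10 ^ 10 * ω / δ := by field_simp

/-- if a right neighbour is shifted then the bottom right corner is spanned downwards and the
top right corner is spanned upwards -/
theorem span {ι : Type} [Fintype ι] {F : ι → Sq} (hF : Packing F) (i j : ι)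
    {ω δ : ℝ} (h0 : 0 ≤ ω) (h1 : ω ≤ 1 / 10 ^ 14) (hW : Wle F (F i) 13 ω)
    (hj : RN (F i) (F j)) (hq : δ ≤ |qq (F i) (F j)|) (hq' : |qq (F i) (F j)| ≤ 1 - δ)
    (hδ : 10 ^ 12 * ω < δ ^ 2) (hδ0 : 0 < δ) :
    (∃ k, RN (F i) (F k) ∧ pp (F i) (F k) ≤ 1 + 2 * 10 ^ 10 * ω / δ ∧
      qq (F i) (F k) ≤ -(δ / 2) ∧ -1 + δ / 2 ≤ qq (F i) (F k)) ∧
    (∃ k, RN (F i) (F k) ∧ pp (F i) (F k) ≤ 1 + 2 * 10 ^ 10 * ω / δ ∧
      δ / 2 ≤ qq (F i) (F k) ∧ qq (F i) (F k) ≤ 1 - δ / 2) := by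
  have h1' : ω ≤ 1 / 10 ^ 13 := le_trans h1 (by norm_num)
  have hmem : ∀ k, k ∈ RNs F i ↔ RN (F i) (F k) := fun k => by simp [RNs]
  obtain ⟨hc1, hc2⟩ := cover hF i h0 h1' hW
  obtain ⟨-, -, hpair, -⟩ := RNs_stack hF i h0 h1' hW
  have hjs : j ∈ RNs F i := (hmem j).2 hj
  have hq1 : ∀ k ∈ RNs F i, |qq (F i) (F k)| < 1 := fun k hk => ((hmem k).1 hk).2.2
  -- the square `j` itself
  have hpj : pp (F i) (F j) ≤ 1 + 2 * 10 ^ 10 * ω / δ := by
    have h2 := GF1_gap (RNs F i) (fun k => pp (F i) (F k)) (fun k => qq (F i) (F k)) (ω := ω)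
      (r := δ) hδ0 hq1 hc1 hjs (by linarith)
    have h3 : 10 ^ 10 * ω / δ ≤ 2 * 10 ^ 10 * ω / δ := by
      apply div_le_div_of_nonneg_right _ hδ0.le
      linarith
    exact le_trans h2 (by linarith)
  rcases le_abs'.1 hq with hneg | hpos
  · have habs : |qq (F i) (F j)| = -qq (F i) (F j) := abs_of_neg (by linarith)
    rw [habs] at hq hq'
    refine ⟨⟨j, hj, hpj, by linarith, by linarith⟩, ?_⟩
    obtain ⟨k, hk, hp, ha, hb⟩ := GF1_aux (RNs F i) (fun k => pp (F i) (F k))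
      (fun k => qq (F i) (F k)) h0 hδ0 hδ hq1 hpair hc1 hc2 j hjs hq hq'
    exact ⟨k, (hmem k).1 hk, hp, ha, hb⟩
  · have habs : |qq (F i) (F j)| = qq (F i) (F j) := abs_of_pos (by linarith)
    rw [habs] at hq hq'
    refine ⟨?_, ⟨j, hj, hpj, by linarith, by linarith⟩⟩
    obtain ⟨k, hk, hp, ha, hb⟩ := GF1_aux (RNs F i) (fun k => pp (F i) (F k))
      (fun k => -qq (F i) (F k)) h0 hδ0 hδ (fun k hk => by rw [abs_neg]; exact hq1 k hk)
      (fun a ha b hb hab => by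
        rw [show -qq (F i) (F a) - -qq (F i) (F b) = -(qq (F i) (F a) - qq (F i) (F b)) by ring,
          abs_neg]
        exact hpair a ha b hb hab)
      (by simpa only [abs_neg] using hc1) (by simpa only [abs_neg] using hc2) j hjs
      (by rw [neg_neg]; exact hq) (by rw [neg_neg]; exact hq')
    exact ⟨k, (hmem k).1 hk, hp, by linarith, by linarith⟩

end SqL
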