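import Pool.Agent.Lib.MP_e85462_co.G.F1

open MeasureTheory Set

namespace SqL

theorem GF2_pp_self (S : Sq) : pp S S = 0 := by
  simp only [pp, Sq.fa, Sq.m, sub_self, zero_mul, add_zero]

theorem GF2_qq_self (S : Sq) : qq S S = 0 := by
  simp only [qq, Sq.fb, Sq.m, sub_self, zero_mul]

theorem GF2_pp3 (S T : Sq) : pp S.rot.rot.rot T.rot.rot.rot = -qq S T := by
  have h : pp S.rot.rot.rot T.rot.rot.rot = pp S.rot.rot.rot T := rfl
  rw [h, pp_rot, qq_rot, pp_rot]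

theorem GF2_qq3 (S T : Sq) : qq S.rot.rot.rot T.rot.rot.rot = pp S T := by
  have h : qq S.rot.rot.rot T.rot.rot.rot = qq S.rot.rot.rot T := rfl
  rw [h, qq_rot, pp_rot, qq_rot, neg_neg]

theorem GF2_RN3 (S T : Sq) : RN S.rot.rot.rot T.rot.rot.rot ↔ BN S T := by
  rw [RN, BN, GF2_pp3, GF2_qq3]

theorem corner {ι : Type} [Fintype ι] {F : ι → Sq} (hF : Packing F) (i j k : ι)
    {ω δ : ℝ} (h0 : 0 ≤ ω) (h1 : ω ≤ 1 / 10 ^ 14) (hW : Wle F (F i) 13 ω) (hδ0 : 0 < δ)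
    (hj : RN (F i) (F j)) (hq : δ ≤ |qq (F i) (F j)|) (hq' : |qq (F i) (F j)| ≤ 1 - δ)
    (hk : BN (F i) (F k)) (hp : δ ≤ |pp (F i) (F k)|) (hp' : |pp (F i) (F k)| ≤ 1 - δ) :
    δ ^ 2 ≤ 10 ^ 12 * ω := by
  by_contra hcon
  push Not at hcon
  have hδ2 : δ ≤ 1 / 2 := by linarith
  have h113 : ω ≤ 1 / 10 ^ 13 := by
    refine h1.trans ?_
    norm_num
  obtain ⟨u, huRN, hu1, hu2, hu3⟩ := (span hF i j h0 h1 hW hj hq hq' hcon hδ0).1
  have hG : Packing (fun i => (F i).rot.rot.rot) := rot_packing (rot_packing (rot_packing hF))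
  have hWG : Wle (fun i => (F i).rot.rot.rot) ((F i).rot.rot.rot) 13 ω :=
    rot_Wle (rot_Wle (rot_Wle hW))
  obtain ⟨w, hwRN, hw1, hw2, hw3⟩ := (span (F := fun i => (F i).rot.rot.rot) hG i k h0 h1 hWG
    ((GF2_RN3 _ _).2 hk) (by rw [GF2_qq3]; exact hp) (by rw [GF2_qq3]; exact hp') hcon hδ0).2
  rw [GF2_RN3] at hwRN
  rw [GF2_pp3] at hw1
  rw [GF2_qq3] at hw2 hw3
  obtain ⟨a1, a2, a3⟩ := huRN
  obtain ⟨b1, b2, b3⟩ := hwRN
  set e := 2 * 10 ^ 10 * ω / δ with he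
  have he1 : e ≤ δ / 50 := by
    rw [he, div_le_iff₀ hδ0]
    nlinarith
  have hω1 : ω ≤ δ ^ 2 / 10 ^ 12 := by
    rw [le_div_iff₀ (by norm_num)]
    linarith
  have hω2 : ω ≤ δ / (2 * 10 ^ 12) := by
    refine hω1.trans ?_
    rw [div_le_div_iff₀ (by norm_num) (by norm_num)]
    nlinarith
  rw [le_div_iff₀ (by norm_num)] at hω2
  have hdu : dd (F i) (F u) ≤ 25 := by
    rw [← pq_sq]
    have h2 := abs_lt.1 a3
    nlinarith
  have hdw : dd (F i) (F w) ≤ 25 := by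
    rw [← pq_sq]
    have h2 := abs_lt.1 b3
    nlinarith
  have hau := align hF i u h0 h113 hW hdu
  have haw := align hF i w h0 h113 hW hdw
  have hiu : i ≠ u := by
    rintro rfl
    rw [GF2_pp_self] at a1
    norm_num at a1
  by_cases huw : u = w
  · subst huw
    have hs := sep (hF i u hiu)
    have h2 : max |pp (F i) (F u)| |qq (F i) (F u)| ≤ 1 - δ / 2 := by
      refine max_le ?_ ?_
      · rw [abs_of_nonneg (by linarith)]
        exact hw3
      · rw [abs_of_nonpos (by linarith)]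
        linarith
    linarith
  · have hθ : 2 * 10 ^ 7 * ω ≤ 1 / 100 := by
      linarith
    have h3 : |pp (F i) (F u) - pp (F i) (F w)| + |qq (F i) (F u) - qq (F i) (F w)| ≤ 4 := by
      have c1 : |pp (F i) (F u) - pp (F i) (F w)| ≤ 2 := abs_le.2 ⟨by linarith, by linarith⟩
      have c2 : |qq (F i) (F u) - qq (F i) (F w)| ≤ 2 := abs_le.2 ⟨by linarith, by linarith⟩
      linarith
    have hs := sep' (hF u w huw) hau haw hθ h3
    have h4 : max |pp (F i) (F u) - pp (F i) (F w)| |qq (F i) (F u) - qq (F i) (F w)| ≤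
        1 + e - δ / 2 := by
      have he0 : 0 ≤ e := by rw [he]; positivity
      refine max_le ?_ ?_
      · exact abs_le.2 ⟨by linarith, by linarith⟩
      · exact abs_le.2 ⟨by linarith, by linarith⟩
    linarith

end SqL
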